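import Pool.Agent.H748.Sig.Main

/-!
# Proofs of the final statements
-/

set_option autoImplicit false
set_option linter.unusedSectionVars false

namespace Pool.Agent.H748.Sig

open Matrix Polynomial Filter

universe u

variable {G : Type u} [Group G] {n : ℕ}

theorem lift_one_incl (H : Subgroup G) (x : MonoidAlgebra ℂ H) :
    MonoidAlgebra.lift ℂ ℂ G 1 (incl H x) = MonoidAlgebra.lift ℂ ℂ H 1 x := by
  induction x using MonoidAlgebra.induction_linear with
  | zero => simp
  | add x y hx hy => simp only [map_add, hx, hy]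
  | single h' c =>
    rw [incl, MonoidAlgebra.lift_single, MonoidAlgebra.lift_single, map_smul]
    congr 1
    show MonoidAlgebra.lift ℂ ℂ G 1 (MonoidAlgebra.of ℂ G h') = _
    rw [MonoidAlgebra.lift_of]
    rfl

theorem part1 {A : Matrix (Fin n) (Fin n) (MonoidAlgebra ℂ G)} (hA : IsHerm A) (hi : Inv A)
    {d e : ℕ} (ρ : G →* unitaryGroup (Fin d) ℂ) (σ : G →* unitaryGroup (Fin e) ℂ)
    (hρ : ∀ S : Finset G, ∃ H : Subgroup G, H.FG ∧ (∀ s ∈ S, s ∈ H) ∧
      ∀ h : H, ρ h ≠ 1 → ∃ (N : Subgroup H) (_ : N.Normal), TFN (H ⧸ N) ∧ h ∉ N) :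
    sig (ev (tens (um ρ) (um σ)) A) = d * sig (ev (um σ) A) := by
  obtain ⟨H, hfg, hP, A', a, ha, hA', hgap, -, -, hev⟩ := reduce hA hi
    (fun H => ∀ h : H, ρ h ≠ 1 → ∃ (N : Subgroup H) (_ : N.Normal), TFN (H ⧸ N) ∧ h ∉ N) hρ
  have hfg' : Group.FG H := (Group.fg_iff_subgroup_fg H).2 hfg
  rw [hev, hev]
  have h1 := main_tensor (ρ := (um ρ).comp H.subtype) (σ := (um σ).comp H.subtype) ha hA' hgap
    (fun h => um_isU ρ h) (by
      intro h hK
      by_contra hne
      have hne' : ρ h ≠ 1 := by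
        intro hc
        apply hne
        show (ρ h).val = 1
        rw [hc]
        rfl
      obtain ⟨N, hN, ⟨hnil, htf⟩, hhN⟩ := hP h hne'
      exact not_mem_KU h N hnil htf hhN hK) (fun h => um_isU σ h)
  rw [Fintype.card_fin] at h1
  exact h1

theorem part2 (hG : ∀ H : Subgroup G, H.FG → ∀ h : H, h ≠ 1 → ∃ (N : Subgroup H) (_ : N.Normal),
      TFN (H ⧸ N) ∧ h ∉ N)
    {A : Matrix (Fin n) (Fin n) (MonoidAlgebra ℂ G)} (hA : IsHerm A) (hi : Inv A) :
    (∀ (d : ℕ) (ρ : G →* unitaryGroup (Fin d) ℂ), sig (ev (um ρ) A) = d * sig (aug A)) ∧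
    ∀ P : ℕ → ℝ[X],
      (∀ a b ε : ℝ, 0 < a → 0 < ε → ∀ᶠ k in atTop, ∀ x : ℝ, a ≤ |x| → |x| ≤ b →
        |(P k).eval x - ((SignType.sign x : SignType) : ℝ)| ≤ ε) →
      Tendsto (fun k => ∑ i, (aeval A (P k) i i).coeff 1) atTop
        (nhds ((sig (aug A) : ℤ) : ℂ)) := by
  obtain ⟨H, hfg, hP, A', a, ha, hA', hgap, -, hincl, hev⟩ := reduce hA hi
    (fun H => ∀ h : H, h ≠ 1 → ∃ (N : Subgroup H) (_ : N.Normal), TFN (H ⧸ N) ∧ h ∉ N)
    (fun S => ⟨Subgroup.closure (S : Set G), ⟨S, rfl⟩, fun s hs => Subgroup.subset_closure hs,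
      hG _ ⟨S, rfl⟩⟩)
  have hfg' : Group.FG H := (Group.fg_iff_subgroup_fg H).2 hfg
  have hKU : ∀ h : H, h ≠ 1 → h ∉ KU H := by
    intro h hne
    obtain ⟨N, hN, ⟨hnil, htf⟩, hhN⟩ := hP h hne
    exact not_mem_KU h N hnil htf hhN
  have haug : aug A = aug A' := by
    ext i j
    show MonoidAlgebra.lift ℂ ℂ G 1 (A i j) = MonoidAlgebra.lift ℂ ℂ H 1 (A' i j)
    rw [← hincl, lift_one_incl]
  constructor
  · intro d ρ
    rw [hev, haug]
    have h1 := main_aug (ρ := (um ρ).comp H.subtype) ha hA' hgap (fun h => um_isU ρ h) (by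
      intro h hK
      by_contra hne
      refine hKU h ?_ hK
      rintro rfl
      exact hne (map_one _))
    rw [Fintype.card_fin] at h1
    exact h1
  · intro P hPk
    have hAe : A = (incl H).mapMatrix A' := by
      ext i j : 1
      exact (hincl i j).symm
    have hcoeff : ∀ k, ∑ i, (aeval A (P k) i i).coeff 1 =
        ∑ i, (aeval A' (P k) i i).coeff (1 : H) := by
      intro k
      refine Finset.sum_congr rfl fun i _ => ?_
      have h1 : aeval A (P k) = (incl H).mapMatrix (aeval A' (P k)) := by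
        rw [hAe]
        exact aeval_algHom_apply ((incl H).mapMatrix.restrictScalars ℝ) A' (P k)
      rw [h1]
      exact incl_coeff H _ 1
    rw [haug, Metric.tendsto_nhds]
    intro δ hδ
    have hpos : 0 < δ / (n + 1) := by positivity
    filter_upwards [hPk a (L1 A') (δ / (n + 1)) ha hpos] with k hk
    rw [dist_eq_norm, hcoeff]
    refine lt_of_le_of_lt (main_l2 hKU ha hA' hgap hk) ?_
    rw [Fintype.card_fin, mul_div_assoc', div_lt_iff₀ (by positivity)]
    nlinarith

theorem isHerm_skew {B : Matrix (Fin n) (Fin n) (MonoidAlgebra ℤ G)}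
    (hB : ∀ i j g, (B i j).coeff g = -(B j i).coeff g⁻¹) :
    IsHerm (Complex.I • B.map (MonoidAlgebra.mapRingHom G (Int.castRingHom ℂ))) := by
  intro i j g
  have h1 : ∀ i j g, ((Complex.I • B.map (MonoidAlgebra.mapRingHom G (Int.castRingHom ℂ))) i
      j).coeff g = Complex.I * ((B i j).coeff g : ℂ) := by
    intro i j g
    rw [Matrix.smul_apply, Matrix.map_apply, MonoidAlgebra.coeff_smul, Finsupp.smul_apply,
      smul_eq_mul]
    simp
  rw [h1, h1, hB i j g, star_mul']
  simp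

theorem part3 (hG : ∀ H : Subgroup G, H.FG → ∀ h : H, h ≠ 1 → ∃ (N : Subgroup H) (_ : N.Normal),
      TFN (H ⧸ N) ∧ h ∉ N)
    (B : (Matrix (Fin n) (Fin n) (MonoidAlgebra ℤ G))ˣ)
    (hB : ∀ i j g, (B.val i j).coeff g = -(B.val j i).coeff g⁻¹)
    (d : ℕ) (ρ : G →* unitaryGroup (Fin d) ℂ) :
    sig (Complex.I • ev (um ρ)
      (B.val.map (MonoidAlgebra.mapRingHom G (Int.castRingHom ℂ)))) = 0 := by
  have hB1 : (B.val.map (MonoidAlgebra.mapRingHom G (Int.castRingHom ℂ))) *
      (B.inv.map (MonoidAlgebra.mapRingHom G (Int.castRingHom ℂ))) = 1 := by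
    rw [← Matrix.map_mul, B.val_inv, Matrix.map_one _ (map_zero _) (map_one _)]
  have hB2 : (B.inv.map (MonoidAlgebra.mapRingHom G (Int.castRingHom ℂ))) *
      (B.val.map (MonoidAlgebra.mapRingHom G (Int.castRingHom ℂ))) = 1 := by
    rw [← Matrix.map_mul, B.inv_val, Matrix.map_one _ (map_zero _) (map_one _)]
  set A := Complex.I • B.val.map (MonoidAlgebra.mapRingHom G (Int.castRingHom ℂ)) with hAdef
  have hA : IsHerm A := isHerm_skew hB
  have hII : (-Complex.I) * Complex.I = 1 := by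
    rw [neg_mul, Complex.I_mul_I, neg_neg]
  have h1 : A * ((-Complex.I) • B.inv.map (MonoidAlgebra.mapRingHom G (Int.castRingHom ℂ))) = 1 := by
    rw [hAdef, Matrix.mul_smul, Matrix.smul_mul, hB1, smul_smul, hII, one_smul]
  have h2 : ((-Complex.I) • B.inv.map (MonoidAlgebra.mapRingHom G (Int.castRingHom ℂ))) * A = 1 := by
    rw [hAdef, Matrix.mul_smul, Matrix.smul_mul, hB2, smul_smul, mul_comm, hII, one_smul]
  have hu : IsUnit A := ⟨⟨A, _, h1, h2⟩, rfl⟩
  have h3 := (part2 hG hA (Or.inl hu)).1 d ρ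
  have h4 : ev (um ρ) A = Complex.I • ev (um ρ)
      (B.val.map (MonoidAlgebra.mapRingHom G (Int.castRingHom ℂ))) := map_smul _ _ _
  rw [← h4, h3]
  have hT : (aug A)ᵀ = -aug A := by
    ext i j
    rw [transpose_apply, neg_apply]
    show MonoidAlgebra.lift ℂ ℂ G 1 (A j i) = -MonoidAlgebra.lift ℂ ℂ G 1 (A i j)
    have h5 : ∀ i j, MonoidAlgebra.lift ℂ ℂ G 1 (A i j) =
        Complex.I * ((MonoidAlgebra.lift ℤ ℤ G 1 (B.val i j) : ℤ) : ℂ) := by
      intro i j
      rw [hAdef, Matrix.smul_apply, map_smul, smul_eq_mul, Matrix.map_apply]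
      congr 1
      generalize B.val i j = x
      induction x using MonoidAlgebra.induction_linear with
      | zero => simp
      | add x y hx hy => simp only [map_add, hx, hy, Int.cast_add]
      | single h' c => simp
    have h6 : ∀ i j, MonoidAlgebra.lift ℤ ℤ G 1 (B.val i j) =
        -MonoidAlgebra.lift ℤ ℤ G 1 (B.val j i) := by
      intro i j
      rw [MonoidAlgebra.lift_apply, MonoidAlgebra.lift_apply]
      simp only [MonoidHom.one_apply, smul_eq_mul, mul_one]
      unfold Finsupp.sum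
      rw [← Finset.sum_neg_distrib]
      refine Finset.sum_bij (fun g _ => g⁻¹) ?_ ?_ ?_ ?_
      · intro g hg
        rw [Finsupp.mem_support_iff] at hg ⊢
        intro hc
        apply hg
        rw [hB, hc, neg_zero]
      · intro a _ b _ hab
        exact inv_injective hab
      · intro b hb
        refine ⟨b⁻¹, ?_, inv_inv b⟩
        rw [Finsupp.mem_support_iff] at hb ⊢
        rw [hB, inv_inv]
        intro hc
        exact hb (neg_eq_zero.1 hc)
      · intro g _
        exact hB i j g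
    rw [h5, h5, h6 j i]
    push_cast
    ring
  have hgap := gapA_of_mul_eq_one h2
  have h7 := sig_eq_zero (Herm.aug hA) hT (a := 1 / (L1 ((-Complex.I) •
    B.inv.map (MonoidAlgebra.mapRingHom G (Int.castRingHom ℂ))) + 1)) (b := L1 A) (by
      have := L1_nonneg ((-Complex.I) •
        B.inv.map (MonoidAlgebra.mapRingHom G (Int.castRingHom ℂ)))
      positivity) hgap.aug
  rw [h7, mul_zero]

end Pool.Agent.H748.Sig
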