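import Pool.Agent.H748.Sig.Ev

/-!
# The trace statement, the twisted form and the base case
-/

set_option autoImplicit false
set_option linter.unusedSectionVars false

namespace Pool.Agent.H748.Sig

open Polynomial Matrix

variable {G : Type*} [Group G]

/-- `A` has a spectral gap in all finite dimensional unitary representations -/
def GapA {ι : Type} [Fintype ι] [DecidableEq ι] (A : Matrix ι ι (MonoidAlgebra ℂ G))
    (a b : ℝ) : Prop :=
  ∀ (κ : Type) [Fintype κ] [DecidableEq κ] (ρ : G →* Matrix κ κ ℂ), IsU ρ → Gap (ev ρ A) a b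

/-- the trace given by the function `χ` and the augmentation have the same signatures -/
def Cl (χ : G → ℂ) : Prop :=
  ∀ (ι : Type) [Fintype ι] [DecidableEq ι] (A : Matrix ι ι (MonoidAlgebra ℂ G)) (a b : ℝ),
    0 < a → Herm A → GapA A a b → ∀ (P : ℝ[X]) (ε : ℝ), Appr P a b ε →
      ‖TT χ (aeval A P) - (sig (aug A) : ℂ)‖ ≤ Fintype.card ι * ε

variable {ι κ : Type} [Fintype ι] [DecidableEq ι] [Fintype κ] [DecidableEq κ]

theorem Gap.congr {X Y : Type*} [Fintype X] [DecidableEq X] [Fintype Y] [DecidableEq Y]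
    {M : Matrix X X ℂ} {N : Matrix Y Y ℂ} (e : X ≃ Y) (h : ∀ p q, M p q = N (e p) (e q))
    {a b : ℝ} (hN : Gap N a b) : Gap M a b := by
  intro x v hv hM
  refine hN x (fun y => v (e.symm y)) ?_ ?_
  · intro h0
    apply hv
    funext p
    have h1 := congrFun h0 (e p)
    simpa using h1
  · funext y
    have h1 := congrFun hM (e.symm y)
    rw [Pi.smul_apply] at h1 ⊢
    rw [← h1]
    show ∑ z, N y z * v (e.symm z) = ∑ z, M (e.symm y) z * v z
    rw [← Equiv.sum_comp e]
    refine Finset.sum_congr rfl fun z _ => ?_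
    rw [h, Equiv.symm_apply_apply, Equiv.apply_symm_apply]

theorem GapA.tw {A : Matrix ι ι (MonoidAlgebra ℂ G)} {a b : ℝ} (hA : GapA A a b)
    {ρ : G →* Matrix κ κ ℂ} (hρ : IsU ρ) : GapA (tw ρ A) a b := by
  intro l _ _ σ hσ
  exact (hA (κ × l) (tens ρ σ) (hρ.tens hσ)).congr (Equiv.prodAssoc ι κ l)
    (fun p q => ev_tw ρ σ A p q)

theorem Cl.tw {χ : G → ℂ} (h : Cl χ) {A : Matrix ι ι (MonoidAlgebra ℂ G)} {a b : ℝ}
    (ha : 0 < a) (hA : Herm A) (hg : GapA A a b) {ρ : G →* Matrix κ κ ℂ} (hρ : IsU ρ) {P : ℝ[X]} {ε : ℝ}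
    (hP : Appr P a b ε) :
    ‖TT (fun g => χ g * (ρ g).trace) (aeval A P) - (sig (ev ρ A) : ℂ)‖ ≤
      Fintype.card ι * Fintype.card κ * ε := by
  have h1 := h (ι × κ) (Sig.tw ρ A) a b ha (hA.tw hρ) (hg.tw hρ) P ε hP
  have h2 : aeval (Sig.tw ρ A) P = Sig.tw ρ (aeval A P) :=
    aeval_algHom_apply ((Sig.tw ρ).restrictScalars ℝ) A P
  rw [h2, TT_tw, aug_tw, Fintype.card_prod, Nat.cast_mul] at h1
  exact h1

theorem T_one (x : MonoidAlgebra ℂ G) : T (fun _ => 1) x = MonoidAlgebra.lift ℂ ℂ G 1 x := by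
  induction x using MonoidAlgebra.induction_linear with
  | zero => simp
  | add x y hx hy => simp only [map_add, hx, hy]
  | single h c => rw [MonoidAlgebra.lift_single, T_single]; simp

theorem TT_one (A : Matrix ι ι (MonoidAlgebra ℂ G)) : TT (fun _ => 1) A = (aug A).trace := by
  unfold TT Matrix.trace
  exact Finset.sum_congr rfl fun i _ => T_one (A i i)

theorem isU_one : IsU (1 : G →* Matrix κ κ ℂ) := by
  intro g
  simp

theorem lift_unit (x : MonoidAlgebra ℂ G) :
    MonoidAlgebra.lift ℂ (Matrix Unit Unit ℂ) G 1 x () () = MonoidAlgebra.lift ℂ ℂ G 1 x := by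
  induction x using MonoidAlgebra.induction_linear with
  | zero => simp
  | add x y hx hy => simp only [map_add, Matrix.add_apply, hx, hy]
  | single h c => rw [MonoidAlgebra.lift_single, MonoidAlgebra.lift_single]; simp

theorem GapA.aug {A : Matrix ι ι (MonoidAlgebra ℂ G)} {a b : ℝ} (hA : GapA A a b) :
    Gap (aug A) a b := by
  refine (hA Unit 1 isU_one).congr (Equiv.prodPUnit ι).symm ?_
  intro p q
  exact (lift_unit (A p q)).symm

/-- the base case -/
theorem cl_one : Cl (fun _ : G => (1 : ℂ)) := by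
  intro ι _ _ A a b _ hA hg P ε hP
  have h2 : aeval (Sig.aug A) P = Sig.aug (aeval A P) :=
    aeval_algHom_apply (Sig.aug.restrictScalars ℝ) A P
  rw [TT_one, ← h2]
  exact trace_sig hA.aug hg.aug hP

end Pool.Agent.H748.Sig
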