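import Mathlib

/-!
# Finite differences on `ZMod q`
-/

set_option autoImplicit false
set_option linter.unusedSectionVars false

namespace Pool.Agent.H748.Sig

open Finset

variable {q : ℕ} [NeZero q]

/-- difference operator -/
def dl {V : Type*} [Sub V] (f : ZMod q → V) : ZMod q → V := fun a => f (a + 1) - f a

theorem const_of_succ {V : Type*} {f : ZMod q → V} (h : ∀ a, f (a + 1) = f a) (a : ZMod q) :
    f a = f 0 := by
  have h1 : ∀ n : ℕ, f (n : ZMod q) = f 0 := by
    intro n
    induction n with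
    | zero => rw [Nat.cast_zero]
    | succ n ih => rw [Nat.cast_succ, h, ih]
  have h2 := h1 a.val
  rwa [ZMod.natCast_zmod_val] at h2

theorem const_of_iter (M : ℕ) : ∀ f : ZMod q → ℤ, (∀ a, (dl^[M] f) a = 0) → ∀ a, f a = f 0 := by
  induction M with
  | zero =>
    intro f h a
    have h1 := h a
    have h2 := h 0
    rw [Function.iterate_zero, id] at h1 h2
    rw [h1, h2]
  | succ M ih =>
    intro f h
    have h1 := ih (dl f) (fun a => by
      have h2 := h a
      rwa [Function.iterate_succ_apply] at h2)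
    have h3 : ∑ a : ZMod q, dl f a = 0 := by
      unfold dl
      rw [sum_sub_distrib, sub_eq_zero]
      exact Equiv.sum_comp (Equiv.addRight (1 : ZMod q)) f
    have h4 : (Fintype.card (ZMod q) : ℤ) * dl f 0 = 0 := by
      rw [← h3, Finset.sum_congr rfl (fun a _ => h1 a), Finset.sum_const, Finset.card_univ,
        nsmul_eq_mul]
    have h5 : dl f 0 = 0 := by
      rcases mul_eq_zero.1 h4 with h6 | h6
      · exfalso
        have : Fintype.card (ZMod q) ≠ 0 := Fintype.card_ne_zero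
        exact this (by exact_mod_cast h6)
      · exact h6
    apply const_of_succ
    intro a
    have h6 := h1 a
    rw [h5] at h6
    exact sub_eq_zero.1 h6

theorem norm_iter_le (M : ℕ) : ∀ (f : ZMod q → ℂ) (B : ℝ), (∀ a, ‖f a‖ ≤ B) →
    ∀ a, ‖(dl^[M] f) a‖ ≤ 2 ^ M * B := by
  induction M with
  | zero =>
    intro f B h a
    rw [Function.iterate_zero, id, pow_zero, one_mul]
    exact h a
  | succ M ih =>
    intro f B h a
    rw [Function.iterate_succ_apply]
    have h1 := ih (dl f) (2 * B) (fun a => by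
      unfold dl
      calc _ ≤ ‖f (a + 1)‖ + ‖f a‖ := norm_sub_le _ _
        _ ≤ B + B := add_le_add (h _) (h _)
        _ = 2 * B := by ring) a
    calc _ ≤ _ := h1
      _ = _ := by ring

theorem iter_sub (M : ℕ) : ∀ (f g : ZMod q → ℂ) (a : ZMod q),
    (dl^[M] (fun a => f a - g a)) a = (dl^[M] f) a - (dl^[M] g) a := by
  induction M with
  | zero => intro f g a; rfl
  | succ M ih =>
    intro f g a
    rw [Function.iterate_succ_apply, Function.iterate_succ_apply, Function.iterate_succ_apply,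
      ← ih]
    refine congrArg (fun f => (dl^[M] f) a) ?_
    funext b
    unfold dl
    ring

theorem iter_cast (M : ℕ) (d : ℂ) : ∀ (s : ZMod q → ℤ) (a : ZMod q),
    (dl^[M] (fun a => (s a : ℂ) / d)) a = ((dl^[M] s) a : ℂ) / d := by
  induction M with
  | zero => intro s a; rfl
  | succ M ih =>
    intro s a
    rw [Function.iterate_succ_apply, Function.iterate_succ_apply, ← ih]
    refine congrArg (fun f => (dl^[M] f) a) ?_
    funext b
    unfold dl
    push_cast
    ring

/-- if an integral function divided by `d` is close to a function with a small difference, it is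
constant -/
theorem const_of_close (M d : ℕ) (hd : 0 < d) (s : ZMod q → ℤ) (F : ZMod q → ℂ) (η δ : ℝ)
    (h1 : ∀ a, ‖F a - (s a : ℂ) / d‖ ≤ η) (h2 : ∀ a, ‖(dl^[M] F) a‖ ≤ δ)
    (h3 : d * (2 ^ M * η + δ) < 1) (a : ZMod q) : s a = s 0 := by
  refine const_of_iter M s ?_ a
  intro a
  have h4 : (dl^[M] (fun a => F a - (s a : ℂ) / d)) a =
      (dl^[M] F) a - ((dl^[M] s) a : ℂ) / d := by
    rw [iter_sub, iter_cast]
  have h5 := norm_iter_le M _ η h1 a
  rw [h4] at h5
  have h6 : ‖((dl^[M] s) a : ℂ) / d‖ ≤ 2 ^ M * η + δ := by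
    calc ‖((dl^[M] s) a : ℂ) / d‖ =
        ‖(dl^[M] F) a - ((dl^[M] F) a - ((dl^[M] s) a : ℂ) / d)‖ := by rw [sub_sub_cancel]
      _ ≤ ‖(dl^[M] F) a‖ + ‖(dl^[M] F) a - ((dl^[M] s) a : ℂ) / d‖ := norm_sub_le _ _
      _ ≤ δ + 2 ^ M * η := add_le_add (h2 a) h5
      _ = _ := add_comm _ _
  have hd' : (0 : ℝ) < d := by exact_mod_cast hd
  rw [norm_div, Complex.norm_natCast, div_le_iff₀ hd', Complex.norm_intCast] at h6
  have h7 : |((dl^[M] s) a : ℝ)| < 1 := lt_of_le_of_lt h6 (by rw [mul_comm]; exact h3)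
  have h8 : |(dl^[M] s) a| < 1 := by exact_mod_cast h7
  exact Int.abs_lt_one_iff.1 h8

/-- differences of trigonometric sums -/
theorem iter_char (M : ℕ) (y : ℤ →₀ ℂ) : ∀ a : ZMod q,
    (dl^[M] (fun a : ZMod q => y.sum fun j c => c * ZMod.stdAddChar (a * (j : ZMod q)))) a =
      y.sum fun j c => c * ZMod.stdAddChar (a * (j : ZMod q)) *
        ((ZMod.stdAddChar (N := q) (j : ZMod q) : ℂ) - 1) ^ M := by
  induction M with
  | zero =>
    intro a
    rw [Function.iterate_zero, id]
    refine Finsupp.sum_congr fun j _ => ?_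
    rw [pow_zero, mul_one]
  | succ M ih =>
    intro a
    rw [Function.iterate_succ_apply']
    show (dl^[M] _) (a + 1) - (dl^[M] _) a = _
    rw [ih, ih, Finsupp.sum, Finsupp.sum, Finsupp.sum, ← Finset.sum_sub_distrib]
    refine Finset.sum_congr rfl fun j _ => ?_
    rw [add_mul, one_mul, AddChar.map_add_eq_mul]
    ring

theorem norm_char_sub_one_le (j : ℤ) {D : ℕ} (hj : |j| ≤ D) :
    ‖(ZMod.stdAddChar (N := q) (j : ZMod q) : ℂ) - 1‖ ≤ 2 * Real.pi * D / q := by
  have hq : (0 : ℝ) < q := by exact_mod_cast Nat.pos_of_ne_zero (NeZero.ne q)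
  rw [ZMod.stdAddChar_coe]
  have h1 : (2 * (Real.pi : ℂ) * Complex.I * (j : ℂ) / (q : ℂ)) =
      Complex.I * ((2 * Real.pi * j / q : ℝ) : ℂ) := by
    push_cast
    ring
  rw [h1]
  refine (Real.norm_exp_I_mul_ofReal_sub_one_le).trans ?_
  rw [Real.norm_eq_abs, abs_div, abs_mul, abs_mul, abs_of_pos (show (0:ℝ) < 2 by norm_num),
    abs_of_pos Real.pi_pos, abs_of_pos hq]
  apply div_le_div_of_nonneg_right _ hq.le
  apply mul_le_mul_of_nonneg_left _ (by positivity)
  exact_mod_cast hj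

/-- Fourier inversion -/
theorem inversion (y : ℤ →₀ ℂ) (D : ℕ) (hD : ∀ j ∈ y.support, |j| ≤ D) (hq : 2 * D < q)
    (i : ℤ) (hi : |i| ≤ D) :
    ∑ a : ZMod q, (y.sum fun j c => c * ZMod.stdAddChar (a * (j : ZMod q))) *
      ZMod.stdAddChar (a * ((-i : ℤ) : ZMod q)) = q * y i := by
  classical
  have h1 : ∀ j ∈ y.support, ∑ a : ZMod q, (y j * ZMod.stdAddChar (a * (j : ZMod q)) *
      ZMod.stdAddChar (a * ((-i : ℤ) : ZMod q)) : ℂ) = if j = i then (q : ℂ) * y i else 0 := by
    intro j hj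
    have h2 : ∀ a : ZMod q, (y j * ZMod.stdAddChar (a * (j : ZMod q)) *
      ZMod.stdAddChar (a * ((-i : ℤ) : ZMod q)) : ℂ) =
        y j * ZMod.stdAddChar (a * ((j - i : ℤ) : ZMod q)) := by
      intro a
      rw [mul_assoc, ← AddChar.map_add_eq_mul, ← mul_add]
      congr 3
      push_cast
      ring
    rw [Finset.sum_congr rfl (fun a _ => h2 a), ← Finset.mul_sum,
      AddChar.sum_mulShift _ (ZMod.isPrimitive_stdAddChar q)]
    by_cases hji : j = i
    · subst hji
      rw [if_pos (by simp), if_pos rfl, ZMod.card, mul_comm]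
    · rw [if_neg, if_neg hji, Nat.cast_zero, mul_zero]
      intro hc
      rw [ZMod.intCast_zmod_eq_zero_iff_dvd] at hc
      have h3 := hD j hj
      apply hji
      have h4 : |j - i| < q := by
        calc |j - i| ≤ |j| + |i| := abs_sub _ _
          _ ≤ D + D := add_le_add h3 hi
          _ < q := by
            have : ((2 * D : ℕ) : ℤ) < q := by exact_mod_cast hq
            push_cast at this
            linarith
      have h5 := Int.eq_zero_of_abs_lt_dvd hc h4
      linarith
  simp only [Finsupp.sum, Finset.sum_mul]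
  rw [Finset.sum_comm, Finset.sum_congr rfl h1, Finset.sum_ite_eq']
  split_ifs with h2
  · rfl
  · rw [Finsupp.notMem_support_iff.1 h2, mul_zero]

theorem coeff_le (y : ℤ →₀ ℂ) (D : ℕ) (hD : ∀ j ∈ y.support, |j| ≤ D) (hq : 2 * D < q)
    (B : ℝ) (hB : ∀ a : ZMod q, ‖y.sum fun j c => c * ZMod.stdAddChar (a * (j : ZMod q))‖ ≤ B)
    (i : ℤ) (hi : i ∈ y.support) : ‖y i‖ ≤ B := by
  have hq0 : (0 : ℝ) < q := by exact_mod_cast Nat.pos_of_ne_zero (NeZero.ne q)
  have h1 := inversion y D hD hq i (hD i hi)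
  have h2 : ‖(q : ℂ) * y i‖ ≤ q * B := by
    rw [← h1]
    refine (norm_sum_le _ _).trans ?_
    calc _ ≤ ∑ a : ZMod q, B := by
          refine Finset.sum_le_sum fun a _ => ?_
          rw [norm_mul]
          have h3 : ‖(ZMod.stdAddChar (N := q) (a * ((-i : ℤ) : ZMod q)) : ℂ)‖ = 1 := by
            rw [ZMod.stdAddChar_apply]
            exact Circle.norm_coe _
          rw [h3, mul_one]
          exact hB a
      _ = q * B := by rw [Finset.sum_const, Finset.card_univ, ZMod.card, nsmul_eq_mul]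
  rw [norm_mul, Complex.norm_natCast] at h2
  exact le_of_mul_le_mul_left h2 hq0

/-- the bound for the iterated difference -/
theorem iter_char_le (M : ℕ) (y : ℤ →₀ ℂ) (D : ℕ) (hD : ∀ j ∈ y.support, |j| ≤ D)
    (hq : 2 * D < q) (B : ℝ) (hB0 : 0 ≤ B)
    (hB : ∀ a : ZMod q, ‖y.sum fun j c => c * ZMod.stdAddChar (a * (j : ZMod q))‖ ≤ B)
    (a : ZMod q) :
    ‖(dl^[M] (fun a : ZMod q => y.sum fun j c => c * ZMod.stdAddChar (a * (j : ZMod q)))) a‖ ≤
      (2 * D + 1) * B * (2 * Real.pi * D / q) ^ M := by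
  rw [iter_char]
  refine (norm_sum_le _ _).trans ?_
  have h1 : ∀ j ∈ y.support, ‖y j * ZMod.stdAddChar (a * (j : ZMod q)) *
        ((ZMod.stdAddChar (N := q) (j : ZMod q) : ℂ) - 1) ^ M‖ ≤
        B * (2 * Real.pi * D / q) ^ M := by
    intro j hj
    have h3 : ‖(ZMod.stdAddChar (N := q) (a * (j : ZMod q)) : ℂ)‖ = 1 := by
      rw [ZMod.stdAddChar_apply]
      exact Circle.norm_coe _
    rw [norm_mul, norm_mul, norm_pow, h3, mul_one]
    apply mul_le_mul (coeff_le y D hD hq B hB j hj) _ (by positivity) hB0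
    exact pow_le_pow_left₀ (norm_nonneg _) (norm_char_sub_one_le j (hD j hj)) M
  refine (Finset.sum_le_sum h1).trans ?_
  rw [Finset.sum_const, nsmul_eq_mul, mul_assoc ((2 * D : ℝ) + 1)]
  apply mul_le_mul_of_nonneg_right _ (by positivity)
  have h2 : y.support ⊆ Finset.Icc (-(D : ℤ)) D := by
    intro j hj
    rw [Finset.mem_Icc]
    exact abs_le.1 (hD j hj)
  have h3 := Finset.card_le_card h2
  rw [Int.card_Icc] at h3
  have h4 : ((D : ℤ) + 1 - -(D : ℤ)).toNat = 2 * D + 1 := by omega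
  rw [h4] at h3
  exact_mod_cast h3

end Pool.Agent.H748.Sig
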