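import Pool.Agent.H748.Sig.Herm

/-!
# Matrices over group algebras: evaluation in unitary representations, twisting, traces
-/

set_option autoImplicit false
set_option linter.unusedSectionVars false

namespace Pool.Agent.H748.Sig

open Polynomial Matrix

variable {G : Type*} [Group G]
variable {ι κ l : Type*} [Fintype ι] [DecidableEq ι] [Fintype κ] [DecidableEq κ] [Fintype l]
  [DecidableEq l]

/-- unitary representations by matrices -/
def IsU (ρ : G →* Matrix κ κ ℂ) : Prop := ∀ g, (ρ g)ᴴ = ρ g⁻¹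

/-- Hermitian matrices over the group algebra (involution `g ↦ g⁻¹`) -/
def Herm (A : Matrix ι ι (MonoidAlgebra ℂ G)) : Prop :=
  ∀ i j g, (A i j).coeff g = star ((A j i).coeff g⁻¹)

/-- the augmentation of a matrix -/
noncomputable def aug : Matrix ι ι (MonoidAlgebra ℂ G) →ₐ[ℂ] Matrix ι ι ℂ :=
  (MonoidAlgebra.lift ℂ ℂ G 1).mapMatrix

/-- the value of a matrix in a representation -/
noncomputable def ev (ρ : G →* Matrix κ κ ℂ) :
    Matrix ι ι (MonoidAlgebra ℂ G) →ₐ[ℂ] Matrix (ι × κ) (ι × κ) ℂ :=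
  (Matrix.compAlgEquiv ι κ ℂ ℂ).toAlgHom.comp (MonoidAlgebra.lift ℂ (Matrix κ κ ℂ) G ρ).mapMatrix

/-- `g ↦ ρ(g) ⊗ g` -/
noncomputable def twHom (ρ : G →* Matrix κ κ ℂ) : G →* Matrix κ κ (MonoidAlgebra ℂ G) where
  toFun g := (ρ g).map (fun c => MonoidAlgebra.single g c)
  map_one' := by
    ext i j : 1
    rw [map_one, Matrix.map_apply, Matrix.one_apply, Matrix.one_apply]
    split_ifs
    · rfl
    · rw [MonoidAlgebra.single_zero]
  map_mul' g h := by
    ext i j : 1
    rw [map_mul, Matrix.map_apply, Matrix.mul_apply, Matrix.mul_apply]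
    simp only [Matrix.map_apply, MonoidAlgebra.single_mul_single]
    rw [← MonoidAlgebra.singleAddHom_apply, map_sum]
    rfl

/-- twisting by a representation -/
noncomputable def tw (ρ : G →* Matrix κ κ ℂ) :
    Matrix ι ι (MonoidAlgebra ℂ G) →ₐ[ℂ] Matrix (ι × κ) (ι × κ) (MonoidAlgebra ℂ G) :=
  (Matrix.compAlgEquiv ι κ (MonoidAlgebra ℂ G) ℂ).toAlgHom.comp
    (MonoidAlgebra.lift ℂ (Matrix κ κ (MonoidAlgebra ℂ G)) G (twHom ρ)).mapMatrix

theorem tw_apply (ρ : G →* Matrix κ κ ℂ) (A : Matrix ι ι (MonoidAlgebra ℂ G)) (p q : ι × κ) :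
    tw ρ A p q = MonoidAlgebra.lift ℂ (Matrix κ κ (MonoidAlgebra ℂ G)) G (twHom ρ) (A p.1 q.1)
      p.2 q.2 := rfl

theorem ev_apply (ρ : G →* Matrix κ κ ℂ) (A : Matrix ι ι (MonoidAlgebra ℂ G)) (p q : ι × κ) :
    ev ρ A p q = MonoidAlgebra.lift ℂ (Matrix κ κ ℂ) G ρ (A p.1 q.1) p.2 q.2 := rfl

theorem lift_tw_coeff (ρ : G →* Matrix κ κ ℂ) (x : MonoidAlgebra ℂ G) (k k' : κ) (g : G) :
    (MonoidAlgebra.lift ℂ (Matrix κ κ (MonoidAlgebra ℂ G)) G (twHom ρ) x k k').coeff g =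
      x.coeff g * ρ g k k' := by
  classical
  induction x using MonoidAlgebra.induction_linear with
  | zero => simp
  | add x y hx hy =>
    rw [map_add, Matrix.add_apply, MonoidAlgebra.coeff_add, Finsupp.add_apply, hx, hy,
      MonoidAlgebra.coeff_add, Finsupp.add_apply, add_mul]
  | single h c =>
    rw [MonoidAlgebra.lift_single, Matrix.smul_apply]
    show ((c • MonoidAlgebra.single h (ρ h k k')).coeff) g = _
    rw [MonoidAlgebra.smul_single, MonoidAlgebra.coeff_single, MonoidAlgebra.coeff_single,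
      Finsupp.single_apply, Finsupp.single_apply]
    split_ifs with h1
    · rw [h1, smul_eq_mul]
    · rw [zero_mul]

theorem tw_coeff (ρ : G →* Matrix κ κ ℂ) (A : Matrix ι ι (MonoidAlgebra ℂ G)) (p q : ι × κ)
    (g : G) : (tw ρ A p q).coeff g = (A p.1 q.1).coeff g * ρ g p.2 q.2 :=
  lift_tw_coeff ρ _ _ _ g

/-- integration of a function against an element of the group algebra -/
noncomputable def T (χ : G → ℂ) : MonoidAlgebra ℂ G →ₗ[ℂ] ℂ :=
  (Finsupp.linearCombination ℂ χ).comp (MonoidAlgebra.coeffLinearEquiv ℂ).toLinearMap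

theorem T_apply (χ : G → ℂ) (x : MonoidAlgebra ℂ G) :
    T χ x = x.coeff.sum fun g c => c * χ g := rfl

theorem T_single (χ : G → ℂ) (g : G) (c : ℂ) : T χ (MonoidAlgebra.single g c) = c * χ g := by
  rw [T_apply, MonoidAlgebra.coeff_single, Finsupp.sum_single_index (by rw [zero_mul])]

/-- the trace of a matrix over the group algebra for the function `χ` -/
noncomputable def TT (χ : G → ℂ) (A : Matrix ι ι (MonoidAlgebra ℂ G)) : ℂ := ∑ i, T χ (A i i)

theorem TT_eq (χ : G → ℂ) (A : Matrix ι ι (MonoidAlgebra ℂ G)) : TT χ A = T χ A.trace := by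
  rw [TT, Matrix.trace, map_sum]
  rfl

theorem T_lift (χ : G → ℂ) (ρ : G →* Matrix κ κ ℂ) (x : MonoidAlgebra ℂ G) :
    ∑ k, T χ (MonoidAlgebra.lift ℂ (Matrix κ κ (MonoidAlgebra ℂ G)) G (twHom ρ) x k k) =
      T (fun g => χ g * (ρ g).trace) x := by
  classical
  induction x using MonoidAlgebra.induction_linear with
  | zero => simp
  | add x y hx hy =>
    simp only [map_add, Matrix.add_apply, Finset.sum_add_distrib]
    rw [hx, hy]
  | single h c =>
    rw [MonoidAlgebra.lift_single, T_single, Matrix.trace]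
    simp only [Matrix.smul_apply, map_smul, smul_eq_mul]
    rw [← Finset.mul_sum]
    congr 1
    rw [Finset.mul_sum]
    refine Finset.sum_congr rfl fun k _ => ?_
    show T χ (MonoidAlgebra.single h (ρ h k k)) = _
    rw [T_single, mul_comm]
    rfl

theorem TT_tw (χ : G → ℂ) (ρ : G →* Matrix κ κ ℂ) (A : Matrix ι ι (MonoidAlgebra ℂ G)) :
    TT χ (tw ρ A) = TT (fun g => χ g * (ρ g).trace) A := by
  unfold TT
  rw [Fintype.sum_prod_type]
  refine Finset.sum_congr rfl fun i _ => ?_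
  exact T_lift χ ρ (A i i)

theorem lift_one_tw (ρ : G →* Matrix κ κ ℂ) (x : MonoidAlgebra ℂ G) (k k' : κ) :
    MonoidAlgebra.lift ℂ ℂ G 1
      (MonoidAlgebra.lift ℂ (Matrix κ κ (MonoidAlgebra ℂ G)) G (twHom ρ) x k k') =
      MonoidAlgebra.lift ℂ (Matrix κ κ ℂ) G ρ x k k' := by
  induction x using MonoidAlgebra.induction_linear with
  | zero => simp
  | add x y hx hy => simp only [map_add, Matrix.add_apply, hx, hy]
  | single h c =>
    rw [MonoidAlgebra.lift_single, MonoidAlgebra.lift_single, Matrix.smul_apply, map_smul,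
      Matrix.smul_apply]
    congr 1
    show MonoidAlgebra.lift ℂ ℂ G 1 (MonoidAlgebra.single h (ρ h k k')) = _
    rw [MonoidAlgebra.lift_single, MonoidHom.one_apply, smul_eq_mul, mul_one]

theorem aug_tw (ρ : G →* Matrix κ κ ℂ) (A : Matrix ι ι (MonoidAlgebra ℂ G)) :
    aug (tw ρ A) = ev ρ A := by
  ext p q
  exact lift_one_tw ρ (A p.1 q.1) p.2 q.2

theorem lift_one_star (x y : MonoidAlgebra ℂ G) (h : ∀ g, x.coeff g = star (y.coeff g⁻¹)) :
    MonoidAlgebra.lift ℂ ℂ G 1 x = star (MonoidAlgebra.lift ℂ ℂ G 1 y) := by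
  rw [MonoidAlgebra.lift_apply, MonoidAlgebra.lift_apply]
  simp only [MonoidHom.one_apply, smul_eq_mul, mul_one]
  unfold Finsupp.sum
  rw [star_sum]
  refine Finset.sum_bij (fun g _ => g⁻¹) ?_ ?_ ?_ ?_
  · intro g hg
    rw [Finsupp.mem_support_iff] at hg ⊢
    intro hc
    apply hg
    rw [h, hc, star_zero]
  · intro a _ b _ hab
    exact inv_injective hab
  · intro b hb
    refine ⟨b⁻¹, ?_, inv_inv b⟩
    rw [Finsupp.mem_support_iff] at hb ⊢
    rw [h, inv_inv]
    intro hc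
    apply hb
    rw [star_eq_zero] at hc
    exact hc
  · intro g _
    exact h g

theorem Herm.aug {A : Matrix ι ι (MonoidAlgebra ℂ G)} (hA : Herm A) : (aug A).IsHermitian := by
  ext i j
  rw [conjTranspose_apply]
  exact (lift_one_star _ _ (fun g => hA i j g)).symm

theorem Herm.tw {A : Matrix ι ι (MonoidAlgebra ℂ G)} (hA : Herm A) {ρ : G →* Matrix κ κ ℂ}
    (hρ : IsU ρ) : Herm (tw ρ A) := by
  intro p q g
  rw [tw_coeff, tw_coeff, star_mul', hA p.1 q.1 g]
  congr 1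
  have h1 := hρ g
  have h2 := congrFun (congrFun (hρ g⁻¹) p.2) q.2
  rw [inv_inv, conjTranspose_apply] at h2
  exact h2.symm

theorem Herm.ev {A : Matrix ι ι (MonoidAlgebra ℂ G)} (hA : Herm A) {ρ : G →* Matrix κ κ ℂ}
    (hρ : IsU ρ) : (ev ρ A).IsHermitian := by
  rw [← aug_tw]
  exact (hA.tw hρ).aug

/-- tensor products of representations -/
noncomputable def tens (ρ : G →* Matrix κ κ ℂ) (σ : G →* Matrix l l ℂ) :
    G →* Matrix (κ × l) (κ × l) ℂ where
  toFun g := Matrix.kroneckerMap (· * ·) (ρ g) (σ g)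
  map_one' := by
    rw [map_one, map_one]
    exact Matrix.one_kronecker_one
  map_mul' g h := by
    rw [map_mul, map_mul]
    exact Matrix.mul_kronecker_mul _ _ _ _

theorem IsU.tens {ρ : G →* Matrix κ κ ℂ} {σ : G →* Matrix l l ℂ} (hρ : IsU ρ) (hσ : IsU σ) :
    IsU (tens ρ σ) := by
  intro g
  show (Matrix.kroneckerMap (· * ·) (ρ g) (σ g))ᴴ = Matrix.kroneckerMap (· * ·) (ρ g⁻¹) (σ g⁻¹)
  rw [← hρ g, ← hσ g]
  exact Matrix.conjTranspose_kronecker _ _

theorem lift_lift (ρ : G →* Matrix κ κ ℂ) (σ : G →* Matrix l l ℂ) (x : MonoidAlgebra ℂ G)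
    (k k' : κ) (m m' : l) :
    MonoidAlgebra.lift ℂ (Matrix l l ℂ) G σ
      (MonoidAlgebra.lift ℂ (Matrix κ κ (MonoidAlgebra ℂ G)) G (twHom ρ) x k k') m m' =
      MonoidAlgebra.lift ℂ (Matrix (κ × l) (κ × l) ℂ) G (tens ρ σ) x (k, m) (k', m') := by
  induction x using MonoidAlgebra.induction_linear with
  | zero => simp
  | add x y hx hy => simp only [map_add, Matrix.add_apply, hx, hy]
  | single h c =>
    rw [MonoidAlgebra.lift_single, MonoidAlgebra.lift_single, Matrix.smul_apply, map_smul,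
      Matrix.smul_apply, Matrix.smul_apply]
    congr 1
    show MonoidAlgebra.lift ℂ (Matrix l l ℂ) G σ (MonoidAlgebra.single h (ρ h k k')) m m' = _
    rw [MonoidAlgebra.lift_single, Matrix.smul_apply]
    rfl

theorem ev_tw (ρ : G →* Matrix κ κ ℂ) (σ : G →* Matrix l l ℂ)
    (A : Matrix ι ι (MonoidAlgebra ℂ G)) (p q : (ι × κ) × l) :
    ev σ (tw ρ A) p q = ev (tens ρ σ) A (p.1.1, (p.1.2, p.2)) (q.1.1, (q.1.2, q.2)) :=
  lift_lift ρ σ (A p.1.1 q.1.1) p.1.2 q.1.2 p.2 q.2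

end Pool.Agent.H748.Sig
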