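import Mathlib

/-!
# Signatures of Hermitian matrices and traces of polynomials
-/

set_option autoImplicit false

namespace Pool.Agent.H748.Sig

open Polynomial Matrix

section sig

variable {X : Type*} [Fintype X] [DecidableEq X]

/-- The signature of a Hermitian complex matrix: the number of its positive eigenvalues minus the
number of its negative eigenvalues (with multiplicities). -/
noncomputable def sig (M : Matrix X X ℂ) : ℤ :=
  open Classical in
  if h : M.IsHermitian then ∑ i, ((SignType.sign (h.eigenvalues i) : SignType) : ℤ) else 0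

/-- the polynomial `P` is close to the sign on `a ≤ |x| ≤ b` -/
def Appr (P : ℝ[X]) (a b ε : ℝ) : Prop :=
  ∀ x : ℝ, a ≤ |x| → |x| ≤ b → |P.eval x - ((SignType.sign x : SignType) : ℝ)| ≤ ε

/-- all real eigenvalues satisfy `a ≤ |x| ≤ b` -/
def Gap (M : Matrix X X ℂ) (a b : ℝ) : Prop :=
  ∀ (x : ℝ) (v : X → ℂ), v ≠ 0 → M *ᵥ v = (x : ℂ) • v → a ≤ |x| ∧ |x| ≤ b

theorem aeval_diagonal (d : X → ℝ) (P : ℝ[X]) :
    aeval (diagonal (fun i => (d i : ℂ))) P = diagonal (fun i => ((P.eval (d i) : ℝ) : ℂ)) := by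
  have h1 : aeval (diagonalAlgHom ℝ (fun i => (d i : ℂ))) P =
      diagonalAlgHom ℝ (aeval (fun i => (d i : ℂ)) P) :=
    aeval_algHom_apply (diagonalAlgHom ℝ) (fun i => (d i : ℂ)) P
  have h2 : (diagonalAlgHom ℝ (fun i => (d i : ℂ)) : Matrix X X ℂ) =
      diagonal (fun i => (d i : ℂ)) := rfl
  rw [← h2, h1]
  show diagonal _ = diagonal _
  congr 1
  funext i
  have h4 := aeval_algHom_apply (Pi.evalAlgHom ℝ (fun _ : X => ℂ) i) (fun i => (d i : ℂ)) P
  have h3 := aeval_algebraMap_apply ℂ (d i) P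
  rw [coe_aeval_eq_eval] at h3
  exact h4.symm.trans h3

theorem trace_aeval {M : Matrix X X ℂ} (h : M.IsHermitian) (P : ℝ[X]) :
    (aeval M P).trace = ∑ i, ((P.eval (h.eigenvalues i) : ℝ) : ℂ) := by
  have h1 := h.spectral_theorem
  set c := Unitary.conjStarAlgAut ℂ (Matrix X X ℂ) h.eigenvectorUnitary with hc
  have h2 : aeval M P = c (aeval (diagonal (fun i => (h.eigenvalues i : ℂ))) P) := by
    have h3 : aeval (c (diagonal (fun i => (h.eigenvalues i : ℂ)))) P =
        c (aeval (diagonal (fun i => (h.eigenvalues i : ℂ))) P) := by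
      have h4 := aeval_algHom_apply ((c : Matrix X X ℂ ≃⋆ₐ[ℂ] Matrix X X ℂ).toAlgEquiv.toAlgHom.restrictScalars ℝ)
        (diagonal (fun i => (h.eigenvalues i : ℂ))) P
      exact h4
    rw [← h3]
    exact congrArg (fun N => aeval N P) h1
  rw [h2, aeval_diagonal, hc, Unitary.conjStarAlgAut_apply, trace_mul_comm, ← mul_assoc,
    Unitary.coe_star_mul_self, one_mul, trace_diagonal]

theorem gap_eigenvalues {M : Matrix X X ℂ} (h : M.IsHermitian) {a b : ℝ} (hg : Gap M a b) (i : X) :
    a ≤ |h.eigenvalues i| ∧ |h.eigenvalues i| ≤ b := by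
  refine hg _ (⇑(h.eigenvectorBasis i)) ?_ ?_
  · intro h0
    have h1 := h.eigenvectorBasis.orthonormal.1 i
    have h2 : h.eigenvectorBasis i = 0 := by
      ext j
      exact congrFun h0 j
    rw [h2, norm_zero] at h1
    exact zero_ne_one h1
  · rw [h.mulVec_eigenvectorBasis i]
    rfl

theorem trace_sig {M : Matrix X X ℂ} (h : M.IsHermitian) {a b ε : ℝ} (hg : Gap M a b) {P : ℝ[X]}
    (hP : Appr P a b ε) : ‖(aeval M P).trace - (sig M : ℂ)‖ ≤ Fintype.card X * ε := by
  rw [trace_aeval h, sig, dif_pos h, Int.cast_sum, ← Finset.sum_sub_distrib]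
  refine (norm_sum_le _ _).trans ?_
  rw [← nsmul_eq_mul, ← Finset.card_univ, ← Finset.sum_const]
  refine Finset.sum_le_sum fun i _ => ?_
  have h1 := hP (h.eigenvalues i) (gap_eigenvalues h hg i).1 (gap_eigenvalues h hg i).2
  have h2 : (((P.eval (h.eigenvalues i) : ℝ) : ℂ) -
      ((((SignType.sign (h.eigenvalues i) : SignType) : ℤ)) : ℂ)) =
      ((P.eval (h.eigenvalues i) - ((SignType.sign (h.eigenvalues i) : SignType) : ℝ) : ℝ) : ℂ) := by
    push_cast
    rcases SignType.trichotomy (SignType.sign (h.eigenvalues i)) with h | h | h <;> rw [h] <;> simp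
  rw [h2, Complex.norm_real]
  exact h1

theorem abs_sig_le (M : Matrix X X ℂ) : |(sig M : ℝ)| ≤ Fintype.card X := by
  unfold sig
  split_ifs with h
  · rw [Int.cast_sum]
    refine (Finset.abs_sum_le_sum_abs _ _).trans ?_
    rw [← Finset.card_univ, Finset.cast_card]
    refine Finset.sum_le_sum fun i _ => ?_
    rcases SignType.trichotomy (SignType.sign (h.eigenvalues i)) with h | h | h <;> rw [h] <;> simp
  · simp

end sig

end Pool.Agent.H748.Sig
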