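import Pool.Agent.H748.Sig.Claim

/-!
# Invertible matrices over group algebras have uniform spectral gaps
-/

set_option autoImplicit false
set_option linter.unusedSectionVars false

namespace Pool.Agent.H748.Sig

open Matrix

variable {G : Type*} [Group G] {ι κ : Type} [Fintype ι] [DecidableEq ι] [Fintype κ]
  [DecidableEq κ]

/-- Euclidean norm -/
noncomputable def nr (w : κ → ℂ) : ℝ := ‖(WithLp.toLp 2 w : EuclideanSpace ℂ κ)‖

theorem nr_add (v w : κ → ℂ) : nr (v + w) ≤ nr v + nr w := by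
  unfold nr
  rw [WithLp.toLp_add]
  exact norm_add_le _ _

theorem nr_zero : nr (0 : κ → ℂ) = 0 := by
  unfold nr
  rw [WithLp.toLp_zero, norm_zero]

theorem nr_smul (c : ℂ) (v : κ → ℂ) : nr (c • v) = ‖c‖ * nr v := by
  unfold nr
  rw [WithLp.toLp_smul, norm_smul]

theorem nr_sum {α : Type*} (s : Finset α) (v : α → κ → ℂ) :
    nr (∑ a ∈ s, v a) ≤ ∑ a ∈ s, nr (v a) := by
  classical
  induction s using Finset.induction_on with
  | empty => rw [Finset.sum_empty, Finset.sum_empty, nr_zero]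
  | insert a s ha ih =>
    rw [Finset.sum_insert ha, Finset.sum_insert ha]
    exact (nr_add _ _).trans (by linarith)

theorem nr_nonneg (v : κ → ℂ) : 0 ≤ nr v := norm_nonneg _

theorem nr_sq (v : κ → ℂ) : ((nr v ^ 2 : ℝ) : ℂ) = star v ⬝ᵥ v := by
  have h1 : (inner ℂ (WithLp.toLp 2 v : EuclideanSpace ℂ κ) (WithLp.toLp 2 v) : ℂ) =
      star v ⬝ᵥ v := by
    rw [EuclideanSpace.inner_eq_star_dotProduct, dotProduct_comm]
  rw [← h1, inner_self_eq_norm_sq_to_K]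
  unfold nr
  push_cast
  rfl

theorem nr_unitary {ρ : G →* Matrix κ κ ℂ} (hρ : IsU ρ) (g : G) (v : κ → ℂ) :
    nr (ρ g *ᵥ v) = nr v := by
  have h1 : ((nr (ρ g *ᵥ v) ^ 2 : ℝ) : ℂ) = ((nr v ^ 2 : ℝ) : ℂ) := by
    rw [nr_sq, nr_sq, star_mulVec, dotProduct_mulVec, vecMul_vecMul, hρ g, ← map_mul,
      inv_mul_cancel, map_one, vecMul_one]
  have h2 : nr (ρ g *ᵥ v) ^ 2 = nr v ^ 2 := by exact_mod_cast h1
  exact (pow_left_inj₀ (nr_nonneg _) (nr_nonneg _) two_ne_zero).1 h2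

/-- the `ℓ¹`-norm -/
noncomputable def l1 (x : MonoidAlgebra ℂ G) : ℝ := x.coeff.sum fun _ c => ‖c‖

theorem l1_nonneg (x : MonoidAlgebra ℂ G) : 0 ≤ l1 x :=
  Finset.sum_nonneg fun _ _ => norm_nonneg _

theorem lift_mulVec_le {ρ : G →* Matrix κ κ ℂ} (hρ : IsU ρ) (x : MonoidAlgebra ℂ G)
    (v : κ → ℂ) :
    nr (MonoidAlgebra.lift ℂ (Matrix κ κ ℂ) G ρ x *ᵥ v) ≤ l1 x * nr v := by
  rw [MonoidAlgebra.lift_apply, Finsupp.sum, Matrix.sum_mulVec, l1, Finsupp.sum, Finset.sum_mul]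
  refine (nr_sum _ _).trans (Finset.sum_le_sum fun g _ => ?_)
  rw [Matrix.smul_mulVec, nr_smul, nr_unitary hρ]

/-- norm of a block vector -/
noncomputable def bn (v : ι × κ → ℂ) : ℝ := ∑ i, nr (fun k => v (i, k))

theorem bn_nonneg (v : ι × κ → ℂ) : 0 ≤ bn v := Finset.sum_nonneg fun _ _ => nr_nonneg _

theorem bn_smul (c : ℂ) (v : ι × κ → ℂ) : bn (c • v) = ‖c‖ * bn v := by
  unfold bn
  rw [Finset.mul_sum]
  refine Finset.sum_congr rfl fun i _ => ?_
  exact nr_smul c (fun k => v (i, k))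

theorem bn_pos {v : ι × κ → ℂ} (hv : v ≠ 0) : 0 < bn v := by
  rcases (bn_nonneg v).lt_or_eq with h | h
  · exact h
  · exfalso
    apply hv
    have h1 := (Finset.sum_eq_zero_iff_of_nonneg (fun i _ => nr_nonneg _)).1 h.symm
    funext p
    have h2 := h1 p.1 (Finset.mem_univ _)
    unfold nr at h2
    rw [norm_eq_zero] at h2
    have h3 := congrArg (fun w : EuclideanSpace ℂ κ => w p.2) h2
    exact h3

/-- the `ℓ¹`-norm of a matrix -/
noncomputable def L1 (A : Matrix ι ι (MonoidAlgebra ℂ G)) : ℝ := ∑ i, ∑ j, l1 (A i j)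

theorem L1_nonneg (A : Matrix ι ι (MonoidAlgebra ℂ G)) : 0 ≤ L1 A :=
  Finset.sum_nonneg fun _ _ => Finset.sum_nonneg fun _ _ => l1_nonneg _

theorem ev_mulVec_le {ρ : G →* Matrix κ κ ℂ} (hρ : IsU ρ)
    (A : Matrix ι ι (MonoidAlgebra ℂ G)) (v : ι × κ → ℂ) :
    bn (ev ρ A *ᵥ v) ≤ L1 A * bn v := by
  have h1 : ∀ i, nr (fun k => (ev ρ A *ᵥ v) (i, k)) ≤ (∑ j, l1 (A i j)) * bn v := by
    intro i
    have h2 : (fun k => (ev ρ A *ᵥ v) (i, k)) =
        ∑ j, MonoidAlgebra.lift ℂ (Matrix κ κ ℂ) G ρ (A i j) *ᵥ (fun k => v (j, k)) := by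
      funext k
      rw [Finset.sum_apply]
      show ∑ p : ι × κ, ev ρ A (i, k) p * v p = _
      rw [Fintype.sum_prod_type]
      rfl
    rw [h2, Finset.sum_mul]
    refine (nr_sum _ _).trans (Finset.sum_le_sum fun j _ => ?_)
    refine (lift_mulVec_le hρ _ _).trans ?_
    apply mul_le_mul_of_nonneg_left _ (l1_nonneg _)
    exact Finset.single_le_sum (f := fun j => nr (fun k => v (j, k)))
      (fun j _ => nr_nonneg (fun k => v (j, k))) (Finset.mem_univ j)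
  unfold L1
  rw [Finset.sum_mul]
  exact Finset.sum_le_sum fun i _ => h1 i

theorem gapA_of_mul_eq_one {A B : Matrix ι ι (MonoidAlgebra ℂ G)} (h : B * A = 1) :
    GapA A (1 / (L1 B + 1)) (L1 A) := by
  intro κ _ _ ρ hρ x v hv hx
  have hB := L1_nonneg B
  have hbv := bn_pos hv
  constructor
  · have h1 : ev ρ B *ᵥ ((x : ℂ) • v) = v := by
      rw [← hx, mulVec_mulVec, ← map_mul, h, map_one, one_mulVec]
    have h2 : bn v ≤ L1 B * (|x| * bn v) := by
      calc bn v = bn (ev ρ B *ᵥ ((x : ℂ) • v)) := by rw [h1]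
        _ ≤ L1 B * bn ((x : ℂ) • v) := ev_mulVec_le hρ B _
        _ = L1 B * (|x| * bn v) := by rw [bn_smul, Complex.norm_real, Real.norm_eq_abs]
    have h3 : 1 ≤ L1 B * |x| := by
      have h4 : 1 * bn v ≤ (L1 B * |x|) * bn v := by
        rw [one_mul, mul_assoc]
        exact h2
      exact le_of_mul_le_mul_right h4 hbv
    rw [div_le_iff₀ (by linarith)]
    have := abs_nonneg x
    nlinarith
  · have h2 : |x| * bn v ≤ L1 A * bn v := by
      calc |x| * bn v = bn ((x : ℂ) • v) := by rw [bn_smul, Complex.norm_real, Real.norm_eq_abs]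
        _ = bn (ev ρ A *ᵥ v) := by rw [hx]
        _ ≤ _ := ev_mulVec_le hρ A v
    exact le_of_mul_le_mul_right h2 hbv

end Pool.Agent.H748.Sig
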