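import Pool.Agent.H748.Sig.Rep

/-!
# Residually unitriangular groups
-/

set_option autoImplicit false
set_option linter.unusedSectionVars false

namespace Pool.Agent.H748.Sig

open Matrix Polynomial Filter

variable {G : Type*} [Group G]

theorem step_pos {n : ℕ} (ψ : G →* Matrix (Fin n) (Fin n) ℤ) (hψ : ∀ g, Uni (ψ g))
    (i₀ j₀ : Fin n) (hij : i₀ < j₀) (N : Set G)
    (hN : ∀ g ∈ N, ∀ i j : Fin n, i < j → (j : ℕ) - i < (j₀ : ℕ) - i₀ → ψ g i j = 0)
    (h : Cl (ind N)) : Cl (ind {g | g ∈ N ∧ ψ g i₀ j₀ = 0}) := by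
  refine step N (fun g => ψ g i₀ j₀) n ?_ ?_ h
  · intro q hq
    have : NeZero q := ⟨hq.ne'⟩
    refine ⟨Fin n → ZMod q, inferInstance, inferInstance, Fintype.card_pos, ?_, ?_⟩
    · rw [Fintype.card_fun, ZMod.card, Fintype.card_fin]
    · intro a
      refine ⟨mrep q ψ hψ i₀ j₀ hij a, mrep_isU q ψ hψ i₀ j₀ hij a, ?_⟩
      intro _ g hg
      exact mrep_trace q ψ hψ i₀ j₀ hij a g (hN g hg)
  · intro S
    obtain ⟨C, w, hC⟩ := word_bound ψ hψ S
    exact ⟨C, w, fun K g hg => hC i₀ j₀ K g hg⟩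

/-- the elements of `N` whose matrices have no entries at distance `< L` from the diagonal, and at
distance `L` in the first `t` rows -/
def lev {n : ℕ} (ψ : G →* Matrix (Fin n) (Fin n) ℤ) (N : Set G) (L t : ℕ) : Set G :=
  {g | g ∈ N ∧ ∀ i j : Fin n, i < j → ((j : ℕ) - i < L ∨ (j : ℕ) - i = L ∧ (i : ℕ) < t) →
    ψ g i j = 0}

theorem lev_step {n : ℕ} (ψ : G →* Matrix (Fin n) (Fin n) ℤ) (hψ : ∀ g, Uni (ψ g)) (N : Set G)
    (L t : ℕ) (hL : 0 < L) (h : Cl (ind (lev ψ N L t))) : Cl (ind (lev ψ N L (t + 1))) := by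
  by_cases htL : t + L < n
  · have h1 := step_pos ψ hψ ⟨t, by omega⟩ ⟨t + L, htL⟩ (by rw [Fin.mk_lt_mk]; omega) (lev ψ N L t)
      (by
        intro g hg i j hij hd
        refine hg.2 i j hij (Or.inl ?_)
        simpa using hd) h
    have h2 : {g | g ∈ lev ψ N L t ∧ ψ g ⟨t, by omega⟩ ⟨t + L, htL⟩ = 0} = lev ψ N L (t + 1) := by
      ext g
      constructor
      · rintro ⟨⟨h3, h4⟩, h5⟩
        refine ⟨h3, ?_⟩
        intro i j hij hd
        rcases hd with hd | ⟨hd, hit⟩
        · exact h4 i j hij (Or.inl hd)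
        · rcases Nat.lt_succ_iff_lt_or_eq.1 hit with h6 | h6
          · exact h4 i j hij (Or.inr ⟨hd, h6⟩)
          · have h7 : i = ⟨t, by omega⟩ := Fin.ext h6
            have h8 : j = ⟨t + L, htL⟩ := Fin.ext (by
              have : (i : ℕ) < j := hij
              show (j : ℕ) = t + L
              omega)
            rw [h7, h8]
            exact h5
      · rintro ⟨h3, h4⟩
        refine ⟨⟨h3, ?_⟩, ?_⟩
        · intro i j hij hd
          refine h4 i j hij ?_
          rcases hd with hd | ⟨hd, hit⟩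
          · exact Or.inl hd
          · exact Or.inr ⟨hd, by omega⟩
        · refine h4 _ _ (by rw [Fin.mk_lt_mk]; omega) (Or.inr ⟨?_, ?_⟩)
          · show t + L - t = L
            omega
          · show t < t + 1
            omega
    rw [← h2]
    exact h1
  · have h2 : lev ψ N L (t + 1) = lev ψ N L t := by
      ext g
      constructor
      · rintro ⟨h3, h4⟩
        refine ⟨h3, ?_⟩
        intro i j hij hd
        refine h4 i j hij ?_
        rcases hd with hd | ⟨hd, hit⟩
        · exact Or.inl hd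
        · exact Or.inr ⟨hd, by omega⟩
      · rintro ⟨h3, h4⟩
        refine ⟨h3, ?_⟩
        intro i j hij hd
        refine h4 i j hij ?_
        rcases hd with hd | ⟨hd, hit⟩
        · exact Or.inl hd
        · refine Or.inr ⟨hd, ?_⟩
          have h5 := j.2
          have h6 : (i : ℕ) < j := hij
          omega
    rw [h2]
    exact h

theorem lev_all {n : ℕ} (ψ : G →* Matrix (Fin n) (Fin n) ℤ) (hψ : ∀ g, Uni (ψ g)) (N : Set G)
    (h : Cl (ind N)) (L : ℕ) : Cl (ind (lev ψ N (L + 1) 0)) := by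
  induction L with
  | zero =>
    have h1 : lev ψ N (0 + 1) 0 = N := by
      ext g
      constructor
      · exact fun h => h.1
      · intro hg
        refine ⟨hg, ?_⟩
        intro i j hij hd
        exfalso
        have h6 : (i : ℕ) < j := hij
        omega
    rw [h1]
    exact h
  | succ L ih =>
    have h1 : ∀ t, Cl (ind (lev ψ N (L + 1) t)) := by
      intro t
      induction t with
      | zero => exact ih
      | succ t iht => exact lev_step ψ hψ N (L + 1) t (by omega) iht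
    have h2 : lev ψ N (L + 1 + 1) 0 = lev ψ N (L + 1) n := by
      ext g
      constructor
      · rintro ⟨h3, h4⟩
        refine ⟨h3, ?_⟩
        intro i j hij hd
        exact h4 i j hij (Or.inl (by omega))
      · rintro ⟨h3, h4⟩
        refine ⟨h3, ?_⟩
        intro i j hij hd
        refine h4 i j hij ?_
        have := i.2
        omega
    rw [h2]
    exact h1 n

theorem kill {n : ℕ} (ψ : G →* Matrix (Fin n) (Fin n) ℤ) (hψ : ∀ g, Uni (ψ g)) (N : Set G)
    (h : Cl (ind N)) : Cl (ind {g | g ∈ N ∧ ψ g = 1}) := by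
  have h1 := lev_all ψ hψ N h n
  have h2 : lev ψ N (n + 1) 0 = {g | g ∈ N ∧ ψ g = 1} := by
    ext g
    constructor
    · rintro ⟨h3, h4⟩
      refine ⟨h3, ?_⟩
      ext i j
      rcases lt_or_ge i j with hij | hij
      · rw [Matrix.one_apply_ne hij.ne]
        exact h4 i j hij (Or.inl (by omega))
      · rw [hψ g i j hij, Matrix.one_apply]
    · rintro ⟨h3, h4⟩
      refine ⟨h3, ?_⟩
      intro i j hij _
      rw [h4, Matrix.one_apply_ne hij.ne]
  rw [← h2]
  exact h1

/-- the elements which are killed by all homomorphisms to integral unitriangular groups -/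
def KU (G : Type*) [Group G] : Set G :=
  {g | ∀ (n : ℕ) (ψ : G →* Matrix (Fin n) (Fin n) ℤ), (∀ h, Uni (ψ h)) → ψ g = 1}

theorem one_mem_KU : (1 : G) ∈ KU G := fun _ ψ _ => map_one ψ

theorem exists_N (F : Finset G) (hF : ∀ f ∈ F, f ∉ KU G) :
    ∃ N : Set G, KU G ⊆ N ∧ (∀ f ∈ F, f ∉ N) ∧ Cl (ind N) := by
  classical
  induction F using Finset.induction_on with
  | empty =>
    refine ⟨Set.univ, Set.subset_univ _, by simp, ?_⟩
    have h1 : ind (Set.univ : Set G) = fun _ => (1 : ℂ) := by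
      funext g
      rw [ind, if_pos (Set.mem_univ g)]
    rw [h1]
    exact cl_one
  | insert f F hf ih =>
    obtain ⟨N, h1, h2, h3⟩ := ih (fun f hf => hF f (Finset.mem_insert_of_mem hf))
    have hf1 : ∃ (n : ℕ) (ψ : G →* Matrix (Fin n) (Fin n) ℤ), (∀ h, Uni (ψ h)) ∧ ψ f ≠ 1 := by
      have h4 := hF f (Finset.mem_insert_self _ _)
      by_contra hc
      apply h4
      intro n ψ hψ
      by_contra hne
      exact hc ⟨n, ψ, hψ, hne⟩
    obtain ⟨n, ψ, hψ, hψf⟩ := hf1
    refine ⟨{g | g ∈ N ∧ ψ g = 1}, ?_, ?_, kill ψ hψ N h3⟩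
    · intro g hg
      exact ⟨h1 hg, hg n ψ hψ⟩
    · intro f' hf' hc
      rcases Finset.mem_insert.1 hf' with h | h
      · subst h
        exact hψf hc.2
      · exact h2 f' h hc.1

theorem T_congr {χ χ' : G → ℂ} {x : MonoidAlgebra ℂ G} (h : ∀ g, x.coeff g ≠ 0 → χ g = χ' g) :
    T χ x = T χ' x := by
  rw [T_apply, T_apply]
  refine Finsupp.sum_congr fun g hg => ?_
  rw [h g (Finsupp.mem_support_iff.1 hg)]

theorem T_const_mul (c : ℂ) (χ : G → ℂ) (x : MonoidAlgebra ℂ G) :
    T (fun g => c * χ g) x = c * T χ x := by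
  rw [T_apply, T_apply, Finsupp.mul_sum]
  refine Finsupp.sum_congr fun g _ => ?_
  ring

variable {ι κ l : Type} [Fintype ι] [DecidableEq ι] [Fintype κ] [DecidableEq κ] [Fintype l]
  [DecidableEq l]

/-- The trace of the quotient by `KU G`, twisted by a representation of `G`. -/
theorem main_trace {A : Matrix ι ι (MonoidAlgebra ℂ G)} {a b : ℝ} (ha : 0 < a)
    (hA : Herm A) (hg : GapA A a b) {σ : G →* Matrix l l ℂ} (hσ : IsU σ) {P : ℝ[X]} {ε : ℝ}
    (hP : Appr P a b ε) :
    ‖TT (fun g => ind (KU G) g * (σ g).trace) (aeval A P) - (sig (ev σ A) : ℂ)‖ ≤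
      Fintype.card ι * Fintype.card l * ε := by
  classical
  set x := (aeval A P).trace with hx
  obtain ⟨N, h1, h2, h3⟩ := exists_N (x.coeff.support.filter (· ∉ KU G)) (fun f hf =>
    (Finset.mem_filter.1 hf).2)
  have h4 := h3.tw ha hA hg hσ hP
  rw [TT_eq, ← hx] at h4
  rw [TT_eq, ← hx]
  have h5 : T (fun g => ind N g * (σ g).trace) x = T (fun g => ind (KU G) g * (σ g).trace) x := by
    refine T_congr fun g hg => ?_
    by_cases hg1 : g ∈ KU G
    · rw [ind, ind, if_pos hg1, if_pos (h1 hg1)]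
    · rw [ind, ind, if_neg hg1, if_neg (h2 g (Finset.mem_filter.2
        ⟨Finsupp.mem_support_iff.2 hg, hg1⟩))]
  rw [h5] at h4
  exact h4

/-- The trace of the quotient by `KU G`. -/
theorem main_trace_aug {A : Matrix ι ι (MonoidAlgebra ℂ G)} {a b : ℝ} (ha : 0 < a)
    (hA : Herm A) (hg : GapA A a b) {P : ℝ[X]} {ε : ℝ} (hP : Appr P a b ε) :
    ‖TT (ind (KU G)) (aeval A P) - (sig (aug A) : ℂ)‖ ≤ Fintype.card ι * ε := by
  classical
  set x := (aeval A P).trace with hx
  obtain ⟨N, h1, h2, h3⟩ := exists_N (x.coeff.support.filter (· ∉ KU G)) (fun f hf =>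
    (Finset.mem_filter.1 hf).2)
  have h4 := h3 ι A a b ha hA hg P ε hP
  rw [TT_eq, ← hx] at h4
  rw [TT_eq, ← hx]
  have h5 : T (ind N) x = T (ind (KU G)) x := by
    refine T_congr fun g hg => ?_
    by_cases hg1 : g ∈ KU G
    · rw [ind, ind, if_pos hg1, if_pos (h1 hg1)]
    · rw [ind, ind, if_neg hg1, if_neg (h2 g (Finset.mem_filter.2
        ⟨Finsupp.mem_support_iff.2 hg, hg1⟩))]
  rw [h5] at h4
  exact h4

theorem GapA.mono {A : Matrix ι ι (MonoidAlgebra ℂ G)} {a b b' : ℝ} (h : GapA A a b)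
    (hb : b ≤ b') : GapA A a b' := fun κ _ _ ρ hρ => (h κ ρ hρ).mono hb

theorem exists_appr {a b : ℝ} (ha : 0 < a) (δ : ℝ) (hδ : 0 < δ) :
    ∃ P : ℝ[X], ∃ ε : ℝ, ε < δ ∧ Appr P a (max a b) ε := by
  have hb'0 : 0 < max a b := lt_of_lt_of_le ha (le_max_left a b)
  set q0 : ℝ := 1 - a ^ 2 / (max a b) ^ 2 with hq0
  have hq00 : 0 ≤ q0 := by
    rw [hq0, sub_nonneg, div_le_one (by positivity)]
    exact pow_le_pow_left₀ ha.le (le_max_left a b) 2
  have hq01 : q0 < 1 := by
    rw [hq0]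
    have : 0 < a ^ 2 / (max a b) ^ 2 := by positivity
    linarith
  have h1 := (tendsto_dexp 1 q0 zero_le_one hq00 hq01).eventually (gt_mem_nhds hδ)
  obtain ⟨n, hn⟩ := h1.exists
  rw [one_pow, one_mul] at hn
  exact ⟨Q (max a b) n, q0 ^ (2 ^ n), hn, appr_Q ha n⟩

/-- **Signatures in tensor products with representations which are trivial on `KU G`.** -/
theorem main_tensor {A : Matrix ι ι (MonoidAlgebra ℂ G)} {a b : ℝ} (ha : 0 < a)
    (hA : Herm A) (hg : GapA A a b) {ρ : G →* Matrix κ κ ℂ} (hρ : IsU ρ)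
    (hK : ∀ g ∈ KU G, ρ g = 1) {σ : G →* Matrix l l ℂ} (hσ : IsU σ) :
    sig (ev (tens ρ σ) A) = Fintype.card κ * sig (ev σ A) := by
  set m : ℝ := (Fintype.card ι : ℝ) * (Fintype.card l : ℝ) with hm
  set d : ℝ := (Fintype.card κ : ℝ) with hd
  have hm0 : 0 ≤ m := by positivity
  have hd0 : 0 ≤ d := by positivity
  obtain ⟨P, ε, hε, hP⟩ := exists_appr (b := b) ha (1 / (2 * m * d + 1)) (by positivity)
  have hg' : GapA A a (max a b) := hg.mono (le_max_right a b)
  have h1 := main_trace ha hA hg' (hρ.tens hσ) hP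
  have h2 := main_trace ha hA hg' hσ hP
  set τ : ℂ := TT (fun g => ind (KU G) g * (σ g).trace) (aeval A P) with hτ
  have h0 : TT (fun g => ind (KU G) g * (tens ρ σ g).trace) (aeval A P) =
      (Fintype.card κ : ℂ) * τ := by
    rw [hτ, TT_eq, TT_eq, ← T_const_mul]
    congr 2
    funext g
    by_cases hgK : g ∈ KU G
    · have h3 : (tens ρ σ g).trace = (ρ g).trace * (σ g).trace := Matrix.trace_kronecker _ _
      rw [h3, hK g hgK, trace_one]
      ring
    · rw [ind, if_neg hgK]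
      ring
  rw [h0, Fintype.card_prod, Nat.cast_mul] at h1
  have h3 : ‖(sig (ev (tens ρ σ) A) : ℂ) - (Fintype.card κ : ℂ) * (sig (ev σ A) : ℂ)‖ ≤
      2 * m * d * ε := by
    calc _ = ‖(Fintype.card κ : ℂ) * (τ - (sig (ev σ A) : ℂ)) -
          (Fintype.card κ * τ - (sig (ev (tens ρ σ) A) : ℂ))‖ := by
            congr 1
            ring
      _ ≤ ‖(Fintype.card κ : ℂ) * (τ - (sig (ev σ A) : ℂ))‖ +
          ‖(Fintype.card κ * τ - (sig (ev (tens ρ σ) A) : ℂ))‖ := norm_sub_le _ _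
      _ ≤ d * (m * ε) + Fintype.card ι * (Fintype.card κ * Fintype.card l) * ε := by
          apply add_le_add _ h1
          rw [norm_mul, Complex.norm_natCast]
          exact mul_le_mul_of_nonneg_left h2 hd0
      _ = _ := by rw [hm, hd]; ring
  have h4 : ((sig (ev (tens ρ σ) A) : ℂ) - (Fintype.card κ : ℂ) * (sig (ev σ A) : ℂ)) =
      ((sig (ev (tens ρ σ) A) - Fintype.card κ * sig (ev σ A) : ℤ) : ℂ) := by
    push_cast
    ring
  rw [h4, Complex.norm_intCast] at h3
  have h5 : 2 * m * d * ε < 1 := by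
    by_cases hmd : 2 * m * d = 0
    · rw [hmd, zero_mul]
      exact zero_lt_one
    · have hpos : 0 < 2 * m * d := lt_of_le_of_ne (by positivity) (Ne.symm hmd)
      calc 2 * m * d * ε < 2 * m * d * (1 / (2 * m * d + 1)) :=
            mul_lt_mul_of_pos_left hε hpos
        _ ≤ 1 := by
            rw [mul_one_div, div_le_one (by positivity)]
            linarith
  have h6 : |sig (ev (tens ρ σ) A) - Fintype.card κ * sig (ev σ A)| < 1 := by
    have h7 := lt_of_le_of_lt h3 h5
    exact_mod_cast h7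
  have h8 := Int.abs_lt_one_iff.1 h6
  exact sub_eq_zero.1 h8

/-- **Signatures in representations which are trivial on `KU G`.** -/
theorem main_aug {A : Matrix ι ι (MonoidAlgebra ℂ G)} {a b : ℝ} (ha : 0 < a)
    (hA : Herm A) (hg : GapA A a b) {ρ : G →* Matrix κ κ ℂ} (hρ : IsU ρ)
    (hK : ∀ g ∈ KU G, ρ g = 1) : sig (ev ρ A) = Fintype.card κ * sig (aug A) := by
  set m : ℝ := (Fintype.card ι : ℝ) with hm
  set d : ℝ := (Fintype.card κ : ℝ) with hd
  have hm0 : 0 ≤ m := by positivity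
  have hd0 : 0 ≤ d := by positivity
  obtain ⟨P, ε, hε, hP⟩ := exists_appr (b := b) ha (1 / (2 * m * d + 1)) (by positivity)
  have hg' : GapA A a (max a b) := hg.mono (le_max_right a b)
  have h1 := main_trace ha hA hg' hρ hP
  have h2 := main_trace_aug ha hA hg' hP
  set τ : ℂ := TT (ind (KU G)) (aeval A P) with hτ
  have h0 : TT (fun g => ind (KU G) g * (ρ g).trace) (aeval A P) = (Fintype.card κ : ℂ) * τ := by
    rw [hτ, TT_eq, TT_eq, ← T_const_mul]
    congr 2
    funext g
    by_cases hgK : g ∈ KU G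
    · rw [hK g hgK, trace_one]
      ring
    · rw [ind, if_neg hgK]
      ring
  rw [h0] at h1
  have h3 : ‖(sig (ev ρ A) : ℂ) - (Fintype.card κ : ℂ) * (sig (aug A) : ℂ)‖ ≤ 2 * m * d * ε := by
    calc _ = ‖(Fintype.card κ : ℂ) * (τ - (sig (aug A) : ℂ)) -
          (Fintype.card κ * τ - (sig (ev ρ A) : ℂ))‖ := by
            congr 1
            ring
      _ ≤ ‖(Fintype.card κ : ℂ) * (τ - (sig (aug A) : ℂ))‖ +
          ‖(Fintype.card κ * τ - (sig (ev ρ A) : ℂ))‖ := norm_sub_le _ _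
      _ ≤ d * (m * ε) + m * d * ε := by
          apply add_le_add _ h1
          rw [norm_mul, Complex.norm_natCast]
          exact mul_le_mul_of_nonneg_left h2 hd0
      _ = _ := by ring
  have h4 : ((sig (ev ρ A) : ℂ) - (Fintype.card κ : ℂ) * (sig (aug A) : ℂ)) =
      ((sig (ev ρ A) - Fintype.card κ * sig (aug A) : ℤ) : ℂ) := by
    push_cast
    ring
  rw [h4, Complex.norm_intCast] at h3
  have h5 : 2 * m * d * ε < 1 := by
    by_cases hmd : 2 * m * d = 0
    · rw [hmd, zero_mul]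
      exact zero_lt_one
    · have hpos : 0 < 2 * m * d := lt_of_le_of_ne (by positivity) (Ne.symm hmd)
      calc 2 * m * d * ε < 2 * m * d * (1 / (2 * m * d + 1)) :=
            mul_lt_mul_of_pos_left hε hpos
        _ ≤ 1 := by
            rw [mul_one_div, div_le_one (by positivity)]
            linarith
  have h6 : |sig (ev ρ A) - Fintype.card κ * sig (aug A)| < 1 := by
    have h7 := lt_of_le_of_lt h3 h5
    exact_mod_cast h7
  have h8 := Int.abs_lt_one_iff.1 h6
  exact sub_eq_zero.1 h8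

/-- for residually unitriangular groups the canonical trace gives the signature -/
theorem main_l2 (hG : ∀ g : G, g ≠ 1 → g ∉ KU G) {A : Matrix ι ι (MonoidAlgebra ℂ G)} {a b : ℝ}
    (ha : 0 < a) (hA : Herm A) (hg : GapA A a b) {P : ℝ[X]} {ε : ℝ} (hP : Appr P a b ε) :
    ‖(∑ i, (aeval A P i i).coeff 1) - (sig (aug A) : ℂ)‖ ≤ Fintype.card ι * ε := by
  classical
  have h1 := main_trace_aug ha hA hg hP
  have h2 : TT (ind (KU G)) (aeval A P) = ∑ i, (aeval A P i i).coeff 1 := by
    unfold TT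
    refine Finset.sum_congr rfl fun i _ => ?_
    rw [T_apply, Finsupp.sum]
    have h3 : ∀ g : G, ind (KU G) g = if g = 1 then 1 else 0 := by
      intro g
      by_cases hg1 : g = 1
      · rw [if_pos hg1, hg1, ind, if_pos one_mem_KU]
      · rw [if_neg hg1, ind, if_neg (hG g hg1)]
    simp only [h3, mul_ite, mul_zero, mul_one]
    rw [Finset.sum_ite_eq']
    split_ifs with h7
    · rfl
    · rw [Finsupp.notMem_support_iff.1 h7]
  rw [h2] at h1
  exact h1

theorem Q_comp_neg (b : ℝ) (k : ℕ) : (Q b k).comp (-X) = -Q b k := by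
  induction k with
  | zero => rw [Q, mul_comp, C_comp, X_comp]; ring
  | succ k ih =>
    rw [Q, mul_comp, mul_comp, sub_comp, pow_comp, C_comp, C_comp, ih]
    ring

theorem aeval_transpose (M : Matrix ι ι ℂ) (P : ℝ[X]) : (aeval M P)ᵀ = aeval Mᵀ P := by
  rw [aeval_eq_sum_range, aeval_eq_sum_range, transpose_sum]
  refine Finset.sum_congr rfl fun i _ => ?_
  rw [transpose_smul, transpose_pow]

/-- Hermitian matrices which are purely imaginary have signature zero -/
theorem sig_eq_zero {M : Matrix ι ι ℂ} (hM : M.IsHermitian) (hT : Mᵀ = -M) {a b : ℝ} (ha : 0 < a)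
    (hg : Gap M a b) : sig M = 0 := by
  have hg' : Gap M a (max a b) := hg.mono (le_max_right a b)
  have hb'0 : 0 < max a b := lt_of_lt_of_le ha (le_max_left a b)
  set q0 : ℝ := 1 - a ^ 2 / (max a b) ^ 2 with hq0
  have hq00 : 0 ≤ q0 := by
    rw [hq0, sub_nonneg, div_le_one (by positivity)]
    exact pow_le_pow_left₀ ha.le (le_max_left a b) 2
  have hq01 : q0 < 1 := by
    rw [hq0]
    have : 0 < a ^ 2 / (max a b) ^ 2 := by positivity
    linarith
  have h1 : ∀ k : ℕ, ‖(sig M : ℂ)‖ ≤ Fintype.card ι * ((1 : ℝ) ^ k * q0 ^ (2 ^ k)) := by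
    intro k
    have h2 := trace_sig hM hg' (appr_Q (b := max a b) ha k)
    have h3 : (aeval M (Q (max a b) k)).trace = 0 := by
      have h4 : (aeval M (Q (max a b) k)).trace = -(aeval M (Q (max a b) k)).trace := by
        conv_lhs => rw [← trace_transpose, aeval_transpose, hT]
        have h5 : aeval (-M) (Q (max a b) k) = aeval M ((Q (max a b) k).comp (-X)) := by
          rw [aeval_comp]
          simp
        rw [h5, Q_comp_neg, map_neg, trace_neg]
      have h6 : (2 : ℂ) * (aeval M (Q (max a b) k)).trace = 0 := by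
        rw [two_mul]
        nth_rewrite 1 [h4]
        rw [neg_add_cancel]
      exact (mul_eq_zero.1 h6).resolve_left two_ne_zero
    rw [h3, zero_sub, norm_neg] at h2
    rw [one_pow, one_mul]
    exact h2
  have h2 : Tendsto (fun k : ℕ => (Fintype.card ι : ℝ) * ((1 : ℝ) ^ k * q0 ^ (2 ^ k))) atTop
      (nhds (Fintype.card ι * 0)) := (tendsto_dexp 1 q0 zero_le_one hq00 hq01).const_mul _
  rw [mul_zero] at h2
  have h3 : ‖(sig M : ℂ)‖ ≤ 0 := ge_of_tendsto' h2 h1
  have h4 := norm_le_zero_iff.1 h3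
  exact_mod_cast h4

end Pool.Agent.H748.Sig
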