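import Pool.Agent.H748.Sig.Claim

/-!
# Restriction to subgroups
-/

set_option autoImplicit false
set_option linter.unusedSectionVars false

namespace Pool.Agent.H748.Sig

open Matrix

variable {G : Type*} [Group G] {ι κ : Type} [Fintype ι] [DecidableEq ι] [Fintype κ]
  [DecidableEq κ]

/-- restriction of an element of the group algebra to a subgroup -/
noncomputable def rest (H : Subgroup G) (x : MonoidAlgebra ℂ G) : MonoidAlgebra ℂ H :=
  MonoidAlgebra.ofCoeff (x.coeff.comapDomain (Subtype.val : H → G)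
    (Subtype.val_injective.injOn))

theorem rest_coeff (H : Subgroup G) (x : MonoidAlgebra ℂ G) (h : H) :
    (rest H x).coeff h = x.coeff h := rfl

/-- inclusion of group algebras -/
noncomputable def incl (H : Subgroup G) : MonoidAlgebra ℂ H →ₐ[ℂ] MonoidAlgebra ℂ G :=
  MonoidAlgebra.lift ℂ (MonoidAlgebra ℂ G) H ((MonoidAlgebra.of ℂ G).comp H.subtype)

theorem incl_coeff (H : Subgroup G) (x : MonoidAlgebra ℂ H) (h : H) :
    (incl H x).coeff h = x.coeff h := by
  classical
  induction x using MonoidAlgebra.induction_linear with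
  | zero => simp
  | add x y hx hy =>
    rw [map_add, MonoidAlgebra.coeff_add, Finsupp.add_apply, hx, hy, MonoidAlgebra.coeff_add,
      Finsupp.add_apply]
  | single h' c =>
    rw [incl, MonoidAlgebra.lift_single]
    show (c • MonoidAlgebra.single (h' : G) (1 : ℂ)).coeff h = _
    rw [MonoidAlgebra.smul_single, smul_eq_mul, mul_one, MonoidAlgebra.coeff_single,
      MonoidAlgebra.coeff_single, Finsupp.single_apply, Finsupp.single_apply]
    congr 1
    exact propext Subtype.coe_inj

theorem incl_coeff_of_notMem (H : Subgroup G) (x : MonoidAlgebra ℂ H) {g : G} (hg : g ∉ H) :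
    (incl H x).coeff g = 0 := by
  classical
  induction x using MonoidAlgebra.induction_linear with
  | zero => simp
  | add x y hx hy =>
    rw [map_add, MonoidAlgebra.coeff_add, Finsupp.add_apply, hx, hy, add_zero]
  | single h' c =>
    rw [incl, MonoidAlgebra.lift_single]
    show (c • MonoidAlgebra.single (h' : G) (1 : ℂ)).coeff g = _
    rw [MonoidAlgebra.smul_single, MonoidAlgebra.coeff_single, Finsupp.single_apply, if_neg]
    rintro rfl
    exact hg h'.2

theorem incl_injective (H : Subgroup G) : Function.Injective (incl H) := by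
  intro x y hxy
  ext h
  rw [← incl_coeff, ← incl_coeff, hxy]

theorem incl_rest (H : Subgroup G) (x : MonoidAlgebra ℂ G) (hx : ∀ g, x.coeff g ≠ 0 → g ∈ H) :
    incl H (rest H x) = x := by
  ext g
  by_cases hg : g ∈ H
  · exact incl_coeff H (rest H x) ⟨g, hg⟩
  · rw [incl_coeff_of_notMem H _ hg]
    symm
    by_contra hc
    exact hg (hx g hc)

theorem lift_incl (H : Subgroup G) (ρ : G →* Matrix κ κ ℂ) (x : MonoidAlgebra ℂ H) :
    MonoidAlgebra.lift ℂ (Matrix κ κ ℂ) G ρ (incl H x) =
      MonoidAlgebra.lift ℂ (Matrix κ κ ℂ) H (ρ.comp H.subtype) x := by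
  induction x using MonoidAlgebra.induction_linear with
  | zero => simp
  | add x y hx hy => simp only [map_add, hx, hy]
  | single h' c =>
    rw [incl, MonoidAlgebra.lift_single, MonoidAlgebra.lift_single, map_smul]
    congr 1
    show MonoidAlgebra.lift ℂ (Matrix κ κ ℂ) G ρ (MonoidAlgebra.of ℂ G h') = _
    rw [MonoidAlgebra.lift_of]
    rfl

theorem exists_sub (A B : Matrix ι ι (MonoidAlgebra ℂ G)) (hAB : A * B = 1) (hBA : B * A = 1)
    (hA : Herm A) (H : Subgroup G) (hH : ∀ i j g, (A i j).coeff g ≠ 0 ∨ (B i j).coeff g ≠ 0 →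
      g ∈ H) :
    ∃ A' B' : Matrix ι ι (MonoidAlgebra ℂ H), A' * B' = 1 ∧ B' * A' = 1 ∧ Herm A' ∧
      (∀ i j (h : H), (A' i j).coeff h = (A i j).coeff h) ∧
      ∀ (κ : Type) [Fintype κ] [DecidableEq κ] (ρ : G →* Matrix κ κ ℂ),
        ev ρ A = ev (ρ.comp H.subtype) A' := by
  have h1 : ∀ i j, incl H (rest H (A i j)) = A i j := fun i j =>
    incl_rest H _ fun g hg => hH i j g (Or.inl hg)
  have h2 : ∀ i j, incl H (rest H (B i j)) = B i j := fun i j =>
    incl_rest H _ fun g hg => hH i j g (Or.inr hg)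
  have hinj : Function.Injective (fun M : Matrix ι ι (MonoidAlgebra ℂ H) => M.map (incl H)) :=
    fun M N h => Matrix.ext fun i j => incl_injective H (congrFun (congrFun h i) j)
  have hA1 : (Matrix.of fun i j => rest H (A i j)).map (incl H) = A := by
    ext i j : 1
    exact h1 i j
  have hB1 : (Matrix.of fun i j => rest H (B i j)).map (incl H) = B := by
    ext i j : 1
    exact h2 i j
  refine ⟨Matrix.of fun i j => rest H (A i j), Matrix.of fun i j => rest H (B i j), ?_, ?_, ?_,
    ?_, ?_⟩
  · apply hinj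
    show (_ * _ : Matrix ι ι (MonoidAlgebra ℂ H)).map (incl H) = (1 : Matrix _ _ _).map (incl H)
    rw [Matrix.map_mul, hA1, hB1, hAB, Matrix.map_one _ (map_zero _) (map_one _)]
  · apply hinj
    show (_ * _ : Matrix ι ι (MonoidAlgebra ℂ H)).map (incl H) = (1 : Matrix _ _ _).map (incl H)
    rw [Matrix.map_mul, hA1, hB1, hBA, Matrix.map_one _ (map_zero _) (map_one _)]
  · intro i j h
    exact hA i j h
  · intro i j h
    rfl
  · intro κ _ _ ρ
    ext p q
    rw [ev_apply, ev_apply, ← h1 p.1 q.1, lift_incl]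
    rfl

theorem exists_fg (A B : Matrix ι ι (MonoidAlgebra ℂ G)) : ∃ S : Finset G,
    ∀ i j g, (A i j).coeff g ≠ 0 ∨ (B i j).coeff g ≠ 0 → g ∈ S := by
  classical
  refine ⟨Finset.univ.biUnion fun i => Finset.univ.biUnion fun j =>
    (A i j).coeff.support ∪ (B i j).coeff.support, ?_⟩
  intro i j g hg
  rw [Finset.mem_biUnion]
  refine ⟨i, Finset.mem_univ i, ?_⟩
  rw [Finset.mem_biUnion]
  refine ⟨j, Finset.mem_univ j, ?_⟩
  rw [Finset.mem_union, Finsupp.mem_support_iff, Finsupp.mem_support_iff]
  exact hg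

end Pool.Agent.H748.Sig
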