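import Pool.Agent.H748.Sig.Tfn
import Pool.Agent.H748.Sig.Inv
import Pool.Agent.H748.Sig.Sub

/-!
# Signatures of nonsingular Hermitian forms over group rings
-/

set_option autoImplicit false
set_option linter.unusedSectionVars false

namespace Pool.Agent.H748.Sig

open Matrix Polynomial Filter

universe u

/-- torsion-free nilpotent groups -/
def TFN (H : Type*) [Group H] : Prop :=
  Group.IsNilpotent H ∧ ∀ (x : H) (m : ℕ), 0 < m → x ^ m = 1 → x = 1

/-- `A = A*` for the involution `∑ c_g g ↦ ∑ conj(c_g) g⁻¹` of the group algebra -/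
def IsHerm {G : Type u} [Group G] {n : ℕ} (A : Matrix (Fin n) (Fin n) (MonoidAlgebra ℂ G)) :
    Prop :=
  ∀ i j g, (A i j).coeff g = star ((A j i).coeff g⁻¹)

/-- the value `∑ A_g ⊗ τ(g)` of the matrix `A = ∑ A_g g` at a matrix valued function `τ` -/
noncomputable def value {G : Type u} {κ : Type} {n : ℕ} (τ : G → Matrix κ κ ℂ)
    (A : Matrix (Fin n) (Fin n) (MonoidAlgebra ℂ G)) : Matrix (Fin n × κ) (Fin n × κ) ℂ :=
  Matrix.of fun x y => (A x.1 y.1).coeff.sum fun g c => c * τ g x.2 y.2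

/-- the augmentation `∑ A_g` -/
noncomputable def augm {G : Type u} {n : ℕ} (A : Matrix (Fin n) (Fin n) (MonoidAlgebra ℂ G)) :
    Matrix (Fin n) (Fin n) ℂ :=
  Matrix.of fun i j => (A i j).coeff.sum fun _ c => c

/-- the signature of a Hermitian matrix: number of positive minus number of negative
eigenvalues -/
noncomputable def signature {X : Type*} [Fintype X] [DecidableEq X] (M : Matrix X X ℂ) : ℤ :=
  open Classical in
  if h : M.IsHermitian then
    ((Finset.univ.filter fun i => 0 < h.eigenvalues i).card : ℤ) -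
      ((Finset.univ.filter fun i => h.eigenvalues i < 0).card : ℤ)
  else 0

theorem signature_eq {X : Type*} [Fintype X] [DecidableEq X] (M : Matrix X X ℂ) :
    signature M = sig M := by
  classical
  unfold signature sig
  split_ifs with h
  · rw [Finset.card_filter, Finset.card_filter]
    push_cast
    rw [← Finset.sum_sub_distrib]
    refine Finset.sum_congr rfl fun i _ => ?_
    rcases lt_trichotomy (h.eigenvalues i) 0 with h1 | h1 | h1
    · rw [if_neg (not_lt.2 h1.le), if_pos h1, sign_neg h1]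
      simp
    · rw [h1]
      simp
    · rw [if_pos h1, if_neg (not_lt.2 h1.le), sign_pos h1]
      simp
  · rfl

section

variable {G : Type u} [Group G] {n : ℕ}

theorem value_eq {κ : Type} [Fintype κ] [DecidableEq κ] (ρ : G →* Matrix κ κ ℂ)
    (A : Matrix (Fin n) (Fin n) (MonoidAlgebra ℂ G)) : value (fun g => ρ g) A = ev ρ A := by
  ext x y
  rw [ev_apply, MonoidAlgebra.lift_apply]
  simp only [value, Matrix.of_apply, Finsupp.sum, Matrix.sum_apply, Matrix.smul_apply,
    smul_eq_mul]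

theorem augm_eq (A : Matrix (Fin n) (Fin n) (MonoidAlgebra ℂ G)) : augm A = aug A := by
  ext i j
  show _ = MonoidAlgebra.lift ℂ ℂ G 1 (A i j)
  rw [MonoidAlgebra.lift_apply]
  simp [augm]

/-- the underlying matrix representation -/
noncomputable def um {d : ℕ} (ρ : G →* unitaryGroup (Fin d) ℂ) : G →* Matrix (Fin d) (Fin d) ℂ :=
  (Submonoid.subtype _).comp ρ

theorem um_apply {d : ℕ} (ρ : G →* unitaryGroup (Fin d) ℂ) (g : G) : um ρ g = (ρ g).val := rfl

theorem um_isU {d : ℕ} (ρ : G →* unitaryGroup (Fin d) ℂ) : IsU (um ρ) := by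
  intro g
  rw [um_apply, um_apply, map_inv]
  rfl

theorem exists_um {κ : Type} [Fintype κ] [DecidableEq κ] (ρ : G →* Matrix κ κ ℂ) (hρ : IsU ρ)
    {d : ℕ} (e : κ ≃ Fin d) :
    ∃ ρ' : G →* unitaryGroup (Fin d) ℂ, ∀ g i j, (ρ' g).val i j = ρ g (e.symm i) (e.symm j) := by
  have h1 : ∀ g, (Matrix.reindexAlgEquiv ℂ ℂ e (ρ g)) ∈ unitaryGroup (Fin d) ℂ := by
    intro g
    rw [mem_unitaryGroup_iff]
    have h2 : star (Matrix.reindexAlgEquiv ℂ ℂ e (ρ g)) =
        Matrix.reindexAlgEquiv ℂ ℂ e (ρ g)ᴴ := by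
      ext i j
      rfl
    rw [h2, hρ g, ← map_mul, ← map_mul, mul_inv_cancel, map_one, map_one]
  refine ⟨{ toFun := fun g => ⟨_, h1 g⟩, map_one' := ?_, map_mul' := ?_ }, ?_⟩
  · apply Subtype.ext
    show Matrix.reindexAlgEquiv ℂ ℂ e (ρ 1) = 1
    rw [map_one, map_one]
  · intro g h
    apply Subtype.ext
    show Matrix.reindexAlgEquiv ℂ ℂ e (ρ (g * h)) =
      Matrix.reindexAlgEquiv ℂ ℂ e (ρ g) * Matrix.reindexAlgEquiv ℂ ℂ e (ρ h)
    rw [map_mul, map_mul]
  · intro g i j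
    rfl

/-- a gap for the representations on `ℂ ^ d` is a gap for all -/
theorem gapA_of_fin {A : Matrix (Fin n) (Fin n) (MonoidAlgebra ℂ G)} {a : ℝ}
    (h : ∀ (d : ℕ) (ρ : G →* unitaryGroup (Fin d) ℂ) (x : ℝ) (v : Fin n × Fin d → ℂ), v ≠ 0 →
      value (fun g => (ρ g).val) A *ᵥ v = (x : ℂ) • v → a ≤ |x|) : GapA A a (L1 A) := by
  intro κ _ _ ρ hρ x v hv hx
  constructor
  · set e := Fintype.equivFin κ with he
    obtain ⟨ρ', hρ'⟩ := exists_um ρ hρ e
    refine h _ ρ' x (fun p => v (p.1, e.symm p.2)) ?_ ?_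
    · intro h0
      apply hv
      funext p
      have h1 := congrFun h0 (p.1, e p.2)
      simpa using h1
    · funext p
      have h1 := congrFun hx (p.1, e.symm p.2)
      rw [Pi.smul_apply] at h1 ⊢
      rw [← h1, ← value_eq]
      show ∑ z : Fin n × Fin (Fintype.card κ), _ * _ = ∑ z : Fin n × κ, _ * v z
      rw [← Equiv.sum_comp (Equiv.prodCongr (Equiv.refl (Fin n)) e)]
      refine Finset.sum_congr rfl fun z _ => ?_
      simp only [value, Matrix.of_apply, hρ', Equiv.prodCongr_apply, Prod.map, Equiv.refl_apply,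
        Equiv.symm_apply_apply]
  · have hbv := bn_pos hv
    have h2 : |x| * bn v ≤ L1 A * bn v := by
      calc |x| * bn v = bn ((x : ℂ) • v) := by rw [bn_smul, Complex.norm_real, Real.norm_eq_abs]
        _ = bn (ev ρ A *ᵥ v) := by rw [hx]
        _ ≤ _ := ev_mulVec_le hρ A v
    exact le_of_mul_le_mul_right h2 hbv

/-- the condition that `A` is invertible over the group algebra or in the group `C*`-algebra -/
def Inv (A : Matrix (Fin n) (Fin n) (MonoidAlgebra ℂ G)) : Prop :=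
  IsUnit A ∨ (Group.FG G ∧ ∃ a : ℝ, 0 < a ∧ ∀ (d : ℕ) (ρ : G →* unitaryGroup (Fin d) ℂ) (x : ℝ)
    (v : Fin n × Fin d → ℂ), v ≠ 0 → value (fun g => (ρ g).val) A *ᵥ v = (x : ℂ) • v → a ≤ |x|)

/-- reduction to a finitely generated subgroup -/
theorem reduce {A : Matrix (Fin n) (Fin n) (MonoidAlgebra ℂ G)} (hA : IsHerm A) (hi : Inv A)
    (Pr : Subgroup G → Prop) (hP : ∀ S : Finset G, ∃ H : Subgroup G, H.FG ∧ (∀ s ∈ S, s ∈ H) ∧
      Pr H) :
    ∃ H : Subgroup G, H.FG ∧ Pr H ∧ ∃ (A' : Matrix (Fin n) (Fin n) (MonoidAlgebra ℂ H)) (a : ℝ),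
      0 < a ∧ Herm A' ∧ GapA A' a (L1 A') ∧
      (∀ i j (h : H), (A' i j).coeff h = (A i j).coeff h) ∧
      (∀ i j, incl H (A' i j) = A i j) ∧
      ∀ (κ : Type) [Fintype κ] [DecidableEq κ] (ρ : G →* Matrix κ κ ℂ),
        ev ρ A = ev (ρ.comp H.subtype) A' := by
  rcases hi with hu | ⟨hfg, a, ha, hgap⟩
  · obtain ⟨⟨A, B, hAB, hBA⟩, rfl⟩ := hu
    obtain ⟨S, hS⟩ := exists_fg A B
    obtain ⟨H, hHfg, hSH, hPH⟩ := hP S
    obtain ⟨A', B', h1, h2, h3, h4, h5⟩ := exists_sub A B hAB hBA hA H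
      (fun i j g hg => hSH g (hS i j g hg))
    refine ⟨H, hHfg, hPH, A', 1 / (L1 B' + 1), ?_, h3, gapA_of_mul_eq_one h2, h4, ?_, h5⟩
    · have := L1_nonneg B'
      positivity
    · intro i j
      ext g
      by_cases hg : g ∈ H
      · rw [show (incl H (A' i j)).coeff g = (A' i j).coeff ⟨g, hg⟩ from
          incl_coeff H (A' i j) ⟨g, hg⟩, h4]
      · rw [incl_coeff_of_notMem H _ hg]
        symm
        by_contra hc
        exact hg (hSH g (hS i j g (Or.inl hc)))
  · obtain ⟨S, hS⟩ := Group.fg_def.1 hfg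
    obtain ⟨H, hHfg, hSH, hPH⟩ := hP S
    have hH : H = ⊤ := by
      rw [eq_top_iff, ← hS]
      exact (Subgroup.closure_le H).2 fun s hs => hSH s hs
    have hmem : ∀ g, g ∈ H := fun g => by rw [hH]; exact Subgroup.mem_top g
    have h1 : ∀ i j, incl H (rest H (A i j)) = A i j := fun i j =>
      incl_rest H _ fun g _ => hmem g
    have h5 : ∀ (κ : Type) [Fintype κ] [DecidableEq κ] (ρ : G →* Matrix κ κ ℂ),
        ev ρ A = ev (ρ.comp H.subtype) (Matrix.of fun i j => rest H (A i j)) := by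
      intro κ _ _ ρ
      ext p q
      rw [ev_apply, ev_apply, ← h1 p.1 q.1, lift_incl]
      rfl
    refine ⟨H, hHfg, hPH, Matrix.of fun i j => rest H (A i j), a, ha, fun i j h => hA i j h, ?_,
      fun i j h => rfl, h1, h5⟩
    apply gapA_of_fin
    intro d ρ x v hv hx
    let e : G →* H := { toFun := fun g => ⟨g, hmem g⟩, map_one' := rfl, map_mul' := fun _ _ => rfl }
    refine hgap d (ρ.comp e) x v hv ?_
    rw [← hx]
    have h6 := h5 (Fin d) (um (ρ.comp e))
    have h7 : (um (ρ.comp e)).comp H.subtype = um ρ := by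
      ext h : 1
      rfl
    rw [h7, ← value_eq, ← value_eq] at h6
    congr 1

end

end Pool.Agent.H748.Sig
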