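import Pool.Agent.H748.Sig.Herm

/-!
# Polynomials close to the sign function and the choice of parameters
-/

set_option autoImplicit false
set_option linter.unusedSectionVars false

namespace Pool.Agent.H748.Sig

open Polynomial Filter

/-- Newton-Schulz iteration for the sign function -/
noncomputable def Q (b : ℝ) : ℕ → ℝ[X]
  | 0 => C b⁻¹ * X
  | k + 1 => C 2⁻¹ * (Q b k * (C 3 - Q b k ^ 2))

theorem natDegree_Q (b : ℝ) (k : ℕ) : (Q b k).natDegree ≤ 3 ^ k := by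
  induction k with
  | zero =>
    rw [Q, pow_zero]
    exact (natDegree_C_mul_le _ _).trans natDegree_X_le
  | succ k ih =>
    rw [Q]
    refine (natDegree_C_mul_le _ _).trans ?_
    refine natDegree_mul_le.trans ?_
    have h1 : (C 3 - Q b k ^ 2).natDegree ≤ 2 * 3 ^ k := by
      refine (natDegree_sub_le _ _).trans ?_
      rw [natDegree_C]
      refine max_le (Nat.zero_le _) ?_
      exact natDegree_pow_le.trans (Nat.mul_le_mul_left 2 ih)
    calc _ ≤ 3 ^ k + 2 * 3 ^ k := Nat.add_le_add ih h1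
      _ = 3 ^ (k + 1) := by ring

theorem eval_Q_zero (b x : ℝ) : (Q b 0).eval x = x / b := by
  rw [Q]
  simp
  ring

theorem eval_Q_succ (b x : ℝ) (k : ℕ) :
    (Q b (k + 1)).eval x = (Q b k).eval x * (3 - (Q b k).eval x ^ 2) / 2 := by
  rw [Q]
  simp
  ring

theorem Q_aux {a b x s : ℝ} (ha : 0 < a) (h1 : a ≤ s * x) (h2 : s * x ≤ b) (hs : s * s = 1)
    (k : ℕ) :
    0 < s * (Q b k).eval x ∧ s * (Q b k).eval x ≤ 1 ∧
      1 - (s * (Q b k).eval x) ^ 2 ≤ (1 - a ^ 2 / b ^ 2) ^ (2 ^ k) := by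
  have hb : 0 < b := lt_of_lt_of_le ha (h1.trans h2)
  have hsx : 0 < s * x := lt_of_lt_of_le ha h1
  induction k with
  | zero =>
    rw [eval_Q_zero, pow_zero, pow_one, ← mul_div_assoc]
    refine ⟨div_pos hsx hb, (div_le_one hb).2 h2, ?_⟩
    rw [div_pow]
    apply sub_le_sub_left
    apply div_le_div_of_nonneg_right _ (by positivity)
    exact pow_le_pow_left₀ ha.le h1 2
  | succ k ih =>
    obtain ⟨i1, i2, i3⟩ := ih
    set u := s * (Q b k).eval x with hu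
    have h3 : s * (Q b (k + 1)).eval x = u * (3 - u ^ 2) / 2 := by
      rw [eval_Q_succ, hu, mul_pow, sq s, hs]
      ring
    have hu1 : u ^ 2 ≤ 1 := by nlinarith
    rw [h3]
    have h4 : 0 < u * (3 - u ^ 2) / 2 := by
      have : 0 < 3 - u ^ 2 := by linarith
      positivity
    have h5 : 1 - (u * (3 - u ^ 2) / 2) ^ 2 = (1 - u ^ 2) ^ 2 * ((4 - u ^ 2) / 4) := by ring
    refine ⟨h4, ?_, ?_⟩
    · have h6 : 0 ≤ 1 - (u * (3 - u ^ 2) / 2) ^ 2 := by
        rw [h5]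
        have : 0 ≤ (4 - u ^ 2) / 4 := by linarith
        positivity
      nlinarith
    · rw [h5, pow_succ 2 k, pow_mul]
      calc (1 - u ^ 2) ^ 2 * ((4 - u ^ 2) / 4) ≤ (1 - u ^ 2) ^ 2 * 1 := by
            apply mul_le_mul_of_nonneg_left _ (by positivity)
            nlinarith [sq_nonneg u]
        _ = (1 - u ^ 2) ^ 2 := mul_one _
        _ ≤ _ := pow_le_pow_left₀ (by linarith) i3 2

theorem appr_Q {a b : ℝ} (ha : 0 < a) (k : ℕ) :
    Appr (Q b k) a b ((1 - a ^ 2 / b ^ 2) ^ (2 ^ k)) := by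
  intro x h1 h2
  rcases lt_trichotomy x 0 with hx | hx | hx
  · rw [abs_of_neg hx] at h1 h2
    obtain ⟨i1, i2, i3⟩ := Q_aux (s := -1) (x := x) ha (by linarith) (by linarith) (by norm_num) k
    rw [sign_neg hx]
    have h3 : |eval x (Q b k) - ((-1 : SignType) : ℝ)| = 1 - (-1 * eval x (Q b k)) := by
      have h4 : eval x (Q b k) - ((-1 : SignType) : ℝ) = 1 - (-1 * eval x (Q b k)) := by
        rw [SignType.coe_neg_one]
        ring
      rw [h4, abs_of_nonneg (by linarith)]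
    rw [h3]
    refine le_trans ?_ i3
    nlinarith
  · rw [hx, abs_zero] at h1
    linarith
  · rw [abs_of_pos hx] at h1 h2
    obtain ⟨i1, i2, i3⟩ := Q_aux (s := 1) (x := x) ha (by linarith) (by linarith) (by norm_num) k
    rw [sign_pos hx]
    have h3 : |eval x (Q b k) - ((1 : SignType) : ℝ)| = 1 - (1 * eval x (Q b k)) := by
      have h4 : eval x (Q b k) - ((1 : SignType) : ℝ) = -(1 - (1 * eval x (Q b k))) := by
        rw [SignType.coe_one]
        ring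
      rw [h4, abs_neg, abs_of_nonneg (by linarith)]
    rw [h3]
    refine le_trans ?_ i3
    nlinarith

theorem sq_le_two_pow (n : ℕ) (hn : 4 ≤ n) : n ^ 2 ≤ 2 ^ n := by
  induction n, hn using Nat.le_induction with
  | base => norm_num
  | succ n hn ih =>
    rw [pow_succ 2 n]
    nlinarith

theorem tendsto_dexp (x q0 : ℝ) (hx : 0 ≤ x) (h0 : 0 ≤ q0) (h1 : q0 < 1) :
    Tendsto (fun n : ℕ => x ^ n * q0 ^ (2 ^ n)) atTop (nhds 0) := by
  have h2 : ∃ L : ℕ, x * q0 ^ L ≤ 1 / 2 := by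
    have h3 : Tendsto (fun L : ℕ => x * q0 ^ L) atTop (nhds (x * 0)) :=
      (tendsto_pow_atTop_nhds_zero_of_lt_one h0 h1).const_mul x
    rw [mul_zero] at h3
    have h4 := h3.eventually (gt_mem_nhds (show (0 : ℝ) < 1 / 2 by norm_num))
    obtain ⟨L, hL⟩ := h4.exists
    exact ⟨L, hL.le⟩
  obtain ⟨L, hL⟩ := h2
  have h3 : Tendsto (fun n : ℕ => (1 / 2 : ℝ) ^ n) atTop (nhds 0) :=
    tendsto_pow_atTop_nhds_zero_of_lt_one (by norm_num) (by norm_num)
  refine squeeze_zero' (Eventually.of_forall fun n => by positivity) ?_ h3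
  filter_upwards [eventually_ge_atTop (max 4 L)] with n hn
  have h4 : L * n ≤ 2 ^ n := by
    calc L * n ≤ n * n := Nat.mul_le_mul_right _ (le_of_max_le_right hn)
      _ = n ^ 2 := (sq n).symm
      _ ≤ 2 ^ n := sq_le_two_pow n (le_of_max_le_left hn)
  calc x ^ n * q0 ^ (2 ^ n) ≤ x ^ n * q0 ^ (L * n) := by
        apply mul_le_mul_of_nonneg_left _ (by positivity)
        exact pow_le_pow_of_le_one h0 h1.le h4
    _ = (x * q0 ^ L) ^ n := by rw [mul_pow, ← pow_mul]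
    _ ≤ (1 / 2) ^ n := pow_le_pow_left₀ (by positivity) hL n

theorem params (k C w : ℕ) (m q0 : ℝ) (hm : 0 ≤ m) (h0 : 0 ≤ q0) (h1 : q0 < 1) (N0 : ℕ) :
    ∃ n q : ℕ, N0 < q ∧ 2 * (C * (3 ^ n + 1) ^ w) < q ∧
      (q : ℝ) ^ k * (2 ^ (k + 1) * (m * q0 ^ (2 ^ n)) +
        (2 * (C * (3 ^ n + 1) ^ w : ℕ) + 1) * (m * (1 + q0 ^ (2 ^ n))) *
          (2 * Real.pi * (C * (3 ^ n + 1) ^ w : ℕ) / q) ^ (k + 1)) < 1 := by
  set W : ℕ := 3 ^ w with hW
  set E : ℕ := C * 2 ^ w with hE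
  set Tt : ℕ := 2 * W ^ (k + 2) with hT
  have hW1 : 1 ≤ W := Nat.one_le_pow _ _ (by norm_num)
  have hD : ∀ n, C * (3 ^ n + 1) ^ w ≤ E * W ^ n := by
    intro n
    have h2 : 3 ^ n + 1 ≤ 2 * 3 ^ n := by
      have : 1 ≤ 3 ^ n := Nat.one_le_pow _ _ (by norm_num)
      omega
    calc C * (3 ^ n + 1) ^ w ≤ C * (2 * 3 ^ n) ^ w :=
          Nat.mul_le_mul_left _ (Nat.pow_le_pow_left h2 w)
      _ = E * W ^ n := by
          rw [hE, hW, mul_pow, ← pow_mul, ← pow_mul, mul_comm n w]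
          ring
  have t1 := tendsto_dexp ((Tt : ℝ) ^ k) q0 (by positivity) h0 h1
  have t2 : Tendsto (fun n : ℕ => 2 ^ (k + 1) * m * (((Tt : ℝ) ^ k) ^ n * q0 ^ (2 ^ n))) atTop
      (nhds (2 ^ (k + 1) * m * 0)) := t1.const_mul _
  have t3 : Tendsto (fun n : ℕ => (2 * m * (7 * (2 * E + 1)) ^ (k + 2)) * (1 / 2 : ℝ) ^ n) atTop
      (nhds ((2 * m * (7 * (2 * E + 1)) ^ (k + 2)) * 0)) :=
    (tendsto_pow_atTop_nhds_zero_of_lt_one (by norm_num) (by norm_num)).const_mul _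
  rw [mul_zero] at t2 t3
  have t4 : Tendsto (fun n : ℕ => (2 : ℕ) ^ n) atTop atTop :=
    tendsto_pow_atTop_atTop_of_one_lt (by norm_num)
  have e1 := t2.eventually (gt_mem_nhds (show (0 : ℝ) < 1 / 2 by norm_num))
  have e2 := t3.eventually (gt_mem_nhds (show (0 : ℝ) < 1 / 2 by norm_num))
  have e3 := t4.eventually (eventually_gt_atTop (N0 + 2 * E))
  obtain ⟨n, h2, h3, h4⟩ := (e1.and (e2.and e3)).exists
  have hTn : 2 ^ n * (W ^ (k + 2)) ^ n = Tt ^ n := by rw [hT, mul_pow]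
  have hWn : 1 ≤ (W ^ (k + 2)) ^ n := Nat.one_le_pow _ _ (Nat.one_le_pow _ _ hW1)
  have hq0 : 0 < Tt ^ n := by
    rw [← hTn]
    positivity
  refine ⟨n, Tt ^ n, ?_, ?_, ?_⟩
  · rw [← hTn]
    nlinarith
  · have h5 : W ^ n ≤ (W ^ (k + 2)) ^ n := by
      apply Nat.pow_le_pow_left
      calc W = W ^ 1 := (pow_one W).symm
        _ ≤ W ^ (k + 2) := Nat.pow_le_pow_right hW1 (by omega)
    calc 2 * (C * (3 ^ n + 1) ^ w) ≤ 2 * (E * W ^ n) := Nat.mul_le_mul_left _ (hD n)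
      _ = (2 * E) * W ^ n := by ring
      _ ≤ (2 * E) * (W ^ (k + 2)) ^ n := Nat.mul_le_mul_left _ h5
      _ < 2 ^ n * (W ^ (k + 2)) ^ n := by
          apply Nat.mul_lt_mul_of_pos_right _ (by omega)
          omega
      _ = _ := hTn
  · set D : ℕ := C * (3 ^ n + 1) ^ w with hDn
    set q : ℕ := Tt ^ n with hq
    have hqR : (0 : ℝ) < q := by exact_mod_cast hq0
    have hDR : (D : ℝ) ≤ E * W ^ n := by exact_mod_cast hD n
    have hWR : (1 : ℝ) ≤ (W : ℝ) ^ n := by exact_mod_cast Nat.one_le_pow _ _ hW1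
    have hq01 : q0 ^ (2 ^ n) ≤ 1 := pow_le_one₀ h0 h1.le
    have hq00 : 0 ≤ q0 ^ (2 ^ n) := by positivity
    have h5 : (q : ℝ) ^ k * (2 ^ (k + 1) * (m * q0 ^ (2 ^ n))) < 1 / 2 := by
      refine lt_of_eq_of_lt ?_ h2
      rw [hq]
      push_cast
      rw [← pow_mul, ← pow_mul, mul_comm n k]
      ring
    have h6 : (2 * (D : ℝ) + 1) ≤ 7 * (2 * E + 1) * W ^ n := by
      have : (0:ℝ) ≤ E := by positivity
      nlinarith
    have h7 : 2 * Real.pi * D ≤ 7 * (2 * E + 1) * W ^ n := by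
      have h8 : 2 * Real.pi ≤ 7 := by
        have := Real.pi_lt_d2
        linarith
      have : (0:ℝ) ≤ E := by positivity
      have h9 : 2 * Real.pi * D ≤ 7 * (E * W ^ n) :=
        mul_le_mul h8 hDR (by positivity) (by norm_num)
      nlinarith
    have h8 : (q : ℝ) ^ k * ((2 * (D : ℝ) + 1) * (m * (1 + q0 ^ (2 ^ n))) *
          (2 * Real.pi * D / q) ^ (k + 1)) < 1 / 2 := by
      have h9 : (q : ℝ) ^ k * ((2 * (D : ℝ) + 1) * (m * (1 + q0 ^ (2 ^ n))) *
          (2 * Real.pi * D / q) ^ (k + 1)) =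
          (m * (1 + q0 ^ (2 ^ n))) * ((2 * (D : ℝ) + 1) * (2 * Real.pi * D) ^ (k + 1)) / q := by
        rw [div_pow, pow_succ (q : ℝ) k]
        field_simp
      rw [h9]
      have h10 : (2 * (D : ℝ) + 1) * (2 * Real.pi * D) ^ (k + 1) ≤
          (7 * (2 * E + 1)) ^ (k + 2) * ((W : ℝ) ^ (k + 2)) ^ n := by
        calc (2 * (D : ℝ) + 1) * (2 * Real.pi * D) ^ (k + 1) ≤
            (7 * (2 * E + 1) * W ^ n) * (7 * (2 * E + 1) * W ^ n) ^ (k + 1) := by
              apply mul_le_mul h6 _ (by positivity) (by positivity)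
              exact pow_le_pow_left₀ (by positivity) h7 _
          _ = (7 * (2 * E + 1)) ^ (k + 2) * ((W : ℝ) ^ (k + 2)) ^ n := by
              rw [← pow_succ', mul_pow, ← pow_mul, ← pow_mul]
              ring
      have h11 : (q : ℝ) = 2 ^ n * ((W : ℝ) ^ (k + 2)) ^ n := by
        rw [← hTn]
        push_cast
        ring
      have hWp : (0 : ℝ) < ((W : ℝ) ^ (k + 2)) ^ n := by positivity
      calc (m * (1 + q0 ^ (2 ^ n))) * ((2 * (D : ℝ) + 1) * (2 * Real.pi * D) ^ (k + 1)) / q ≤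
          (m * 2) * ((7 * (2 * E + 1)) ^ (k + 2) * ((W : ℝ) ^ (k + 2)) ^ n) / q := by
            apply div_le_div_of_nonneg_right _ hqR.le
            apply mul_le_mul _ h10 (by positivity) (by positivity)
            apply mul_le_mul_of_nonneg_left _ hm
            linarith
        _ = (2 * m * (7 * (2 * E + 1)) ^ (k + 2)) * (1 / 2 : ℝ) ^ n := by
            rw [h11, one_div, inv_pow]
            field_simp
        _ < 1 / 2 := h3
    calc _ = (q : ℝ) ^ k * (2 ^ (k + 1) * (m * q0 ^ (2 ^ n))) +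
        (q : ℝ) ^ k * ((2 * (D : ℝ) + 1) * (m * (1 + q0 ^ (2 ^ n))) *
          (2 * Real.pi * D / q) ^ (k + 1)) := by ring
      _ < 1 / 2 + 1 / 2 := add_lt_add h5 h8
      _ = 1 := by norm_num

end Pool.Agent.H748.Sig
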