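import Pool.Agent.H748.Sig.Step

/-!
# Representations of unitriangular groups with given central characters
-/

set_option autoImplicit false
set_option linter.unusedSectionVars false

namespace Pool.Agent.H748.Sig

open Matrix

section act

variable {n : ℕ} {q : ℕ} [NeZero q]

/-- integral unitriangular matrices -/
def Uni (M : Matrix (Fin n) (Fin n) ℤ) : Prop := ∀ i j, j ≤ i → M i j = if i = j then 1 else 0

/-- the row vector with entry `1` at `i₀` and the entries of `u` between `i₀` and `j₀` -/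
def row (i₀ j₀ : Fin n) (u : Fin n → ZMod q) : Fin n → ZMod q :=
  fun i => if i = i₀ then 1 else if i₀ < i ∧ i < j₀ then u i else 0

/-- row times matrix -/
def rm (i₀ j₀ : Fin n) (M : Matrix (Fin n) (Fin n) ℤ) (u : Fin n → ZMod q) : Fin n → ZMod q :=
  fun j => ∑ i, row i₀ j₀ u i * (M i j : ZMod q)

/-- the action -/
def act (i₀ j₀ : Fin n) (M : Matrix (Fin n) (Fin n) ℤ) (u : Fin n → ZMod q) : Fin n → ZMod q :=
  fun j => if i₀ < j ∧ j < j₀ then rm i₀ j₀ M u j else u j

variable {i₀ j₀ : Fin n}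

theorem row_act (hij : i₀ < j₀) {M : Matrix (Fin n) (Fin n) ℤ} (hM : Uni M)
    (u : Fin n → ZMod q) (j : Fin n) (hj : j < j₀) :
    row i₀ j₀ (act i₀ j₀ M u) j = rm i₀ j₀ M u j := by
  unfold row
  split_ifs with h1 h2
  · subst h1
    unfold rm
    rw [Finset.sum_eq_single j]
    · rw [hM j j le_rfl, if_pos rfl, row, if_pos rfl]
      simp
    · intro i _ hi
      rcases lt_or_gt_of_ne hi with h | h
      · rw [row, if_neg hi, if_neg (fun hc => absurd hc.1 (not_lt.2 h.le)), zero_mul]
      · rw [hM i j h.le, if_neg hi, Int.cast_zero, mul_zero]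
    · intro h
      exact absurd (Finset.mem_univ _) h
  · unfold act
    rw [if_pos h2]
  · have h3 : j < i₀ := by
      rcases lt_trichotomy j i₀ with h | h | h
      · exact h
      · exact absurd h h1
      · exact absurd ⟨h, hj⟩ h2
    unfold rm
    symm
    apply Finset.sum_eq_zero
    intro i _
    by_cases hi : i < i₀
    · rw [row, if_neg hi.ne, if_neg (fun hc => absurd hc.1 (not_lt.2 hi.le)), zero_mul]
    · have h4 : j < i := lt_of_lt_of_le h3 (not_lt.1 hi)
      rw [hM i j h4.le, if_neg h4.ne', Int.cast_zero, mul_zero]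

theorem rm_mul_aux (M N : Matrix (Fin n) (Fin n) ℤ) (u : Fin n → ZMod q) (j : Fin n) :
    rm i₀ j₀ (M * N) u j = ∑ i, rm i₀ j₀ M u i * (N i j : ZMod q) := by
  unfold rm
  simp only [Matrix.mul_apply, Int.cast_sum, Int.cast_mul, Finset.mul_sum, Finset.sum_mul]
  rw [Finset.sum_comm]
  refine Finset.sum_congr rfl fun i _ => Finset.sum_congr rfl fun k _ => ?_
  ring

theorem rm_mul (hij : i₀ < j₀) {M N : Matrix (Fin n) (Fin n) ℤ} (hM : Uni M) (hN : Uni N)
    (u : Fin n → ZMod q) (j : Fin n) (hj : j < j₀) :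
    rm i₀ j₀ (M * N) u j = rm i₀ j₀ N (act i₀ j₀ M u) j := by
  rw [rm_mul_aux]
  unfold rm
  refine Finset.sum_congr rfl fun i _ => ?_
  by_cases hi : i < j₀
  · rw [row_act hij hM u i hi]
    rfl
  · have h1 : j < i := lt_of_lt_of_le hj (not_lt.1 hi)
    rw [hN i j h1.le, if_neg h1.ne', Int.cast_zero, mul_zero, mul_zero]

theorem rm_mul_last (hij : i₀ < j₀) {M N : Matrix (Fin n) (Fin n) ℤ} (hM : Uni M) (hN : Uni N)
    (u : Fin n → ZMod q) :
    rm i₀ j₀ (M * N) u j₀ = rm i₀ j₀ M u j₀ + rm i₀ j₀ N (act i₀ j₀ M u) j₀ := by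
  rw [rm_mul_aux]
  have h1 : ∀ i, rm i₀ j₀ M u i * (N i j₀ : ZMod q) =
      (if i = j₀ then rm i₀ j₀ M u j₀ else 0) +
        row i₀ j₀ (act i₀ j₀ M u) i * (N i j₀ : ZMod q) := by
    intro i
    rcases lt_trichotomy i j₀ with h | h | h
    · rw [if_neg h.ne, zero_add, row_act hij hM u i h]
    · subst h
      rw [if_pos rfl, hN i i le_rfl, if_pos rfl, Int.cast_one, mul_one, mul_one, row,
        if_neg hij.ne', if_neg (fun hc => lt_irrefl _ hc.2), add_zero]
    · rw [if_neg h.ne', zero_add, hN i j₀ h.le, if_neg h.ne', Int.cast_zero, mul_zero, mul_zero]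
  rw [Finset.sum_congr rfl (fun i _ => h1 i), Finset.sum_add_distrib, Finset.sum_ite_eq',
    if_pos (Finset.mem_univ _)]
  rfl

theorem act_mul (hij : i₀ < j₀) {M N : Matrix (Fin n) (Fin n) ℤ} (hM : Uni M) (hN : Uni N)
    (u : Fin n → ZMod q) : act i₀ j₀ (M * N) u = act i₀ j₀ N (act i₀ j₀ M u) := by
  funext j
  by_cases hj : i₀ < j ∧ j < j₀
  · have h1 : act i₀ j₀ (M * N) u j = rm i₀ j₀ (M * N) u j := if_pos hj
    have h2 : act i₀ j₀ N (act i₀ j₀ M u) j = rm i₀ j₀ N (act i₀ j₀ M u) j := if_pos hj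
    rw [h1, h2, rm_mul hij hM hN u j hj.2]
  · have h1 : act i₀ j₀ (M * N) u j = u j := if_neg hj
    have h2 : act i₀ j₀ N (act i₀ j₀ M u) j = act i₀ j₀ M u j := if_neg hj
    have h3 : act i₀ j₀ M u j = u j := if_neg hj
    rw [h1, h2, h3]

/-- matrices without entries in the short superdiagonals act trivially -/
theorem rm_of_small (hij : i₀ < j₀) {M : Matrix (Fin n) (Fin n) ℤ} (hM : Uni M)
    (hs : ∀ i j : Fin n, i < j → (j : ℕ) - i < (j₀ : ℕ) - i₀ → M i j = 0)
    (u : Fin n → ZMod q) :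
    (∀ j, i₀ < j → j < j₀ → rm i₀ j₀ M u j = u j) ∧ rm i₀ j₀ M u j₀ = (M i₀ j₀ : ZMod q) := by
  constructor
  · intro j h1 h2
    unfold rm
    rw [Finset.sum_eq_single j]
    · rw [hM j j le_rfl, if_pos rfl, row, if_neg h1.ne', if_pos ⟨h1, h2⟩]
      simp
    · intro i _ hi
      rcases lt_or_gt_of_ne hi with h | h
      · by_cases h3 : i < i₀
        · rw [row, if_neg h3.ne, if_neg (fun hc => absurd hc.1 (not_lt.2 h3.le)), zero_mul]
        · rw [hs i j h (by
            have : (i₀ : ℕ) ≤ i := not_lt.1 h3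
            have h4 : (i : ℕ) < j := h
            have h5 : (j : ℕ) < j₀ := h2
            omega), Int.cast_zero, mul_zero]
      · rw [hM i j h.le, if_neg hi, Int.cast_zero, mul_zero]
    · intro h
      exact absurd (Finset.mem_univ _) h
  · unfold rm
    rw [Finset.sum_eq_single i₀]
    · rw [row, if_pos rfl, one_mul]
    · intro i _ hi
      by_cases h3 : i₀ < i ∧ i < j₀
      · rw [hs i j₀ h3.2 (by
          have h4 : (i₀ : ℕ) < i := h3.1
          have h5 : (i : ℕ) < j₀ := h3.2
          omega), Int.cast_zero, mul_zero]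
      · rw [row, if_neg hi, if_neg h3, zero_mul]
    · intro h
      exact absurd (Finset.mem_univ _) h

theorem act_of_small (hij : i₀ < j₀) {M : Matrix (Fin n) (Fin n) ℤ} (hM : Uni M)
    (hs : ∀ i j : Fin n, i < j → (j : ℕ) - i < (j₀ : ℕ) - i₀ → M i j = 0)
    (u : Fin n → ZMod q) : act i₀ j₀ M u = u := by
  funext j
  unfold act
  split_ifs with h
  · exact (rm_of_small hij hM hs u).1 j h.1 h.2
  · rfl

theorem uni_one : Uni (1 : Matrix (Fin n) (Fin n) ℤ) := by
  intro i j _
  rw [Matrix.one_apply]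

theorem act_one (hij : i₀ < j₀) (u : Fin n → ZMod q) : act i₀ j₀ 1 u = u :=
  act_of_small hij uni_one (fun _ _ h _ => Matrix.one_apply_ne h.ne) u

theorem rm_one (hij : i₀ < j₀) (u : Fin n → ZMod q) : rm i₀ j₀ 1 u j₀ = 0 := by
  rw [(rm_of_small hij uni_one (fun _ _ h _ => Matrix.one_apply_ne h.ne) u).2,
    Matrix.one_apply_ne hij.ne, Int.cast_zero]

end act

section rep

variable {G : Type*} [Group G] {n : ℕ}

/-- the monomial representation -/
noncomputable def mrep (q : ℕ) [NeZero q] (ψ : G →* Matrix (Fin n) (Fin n) ℤ)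
    (hψ : ∀ g, Uni (ψ g)) (i₀ j₀ : Fin n) (hij : i₀ < j₀) (a : ZMod q) :
    G →* Matrix (Fin n → ZMod q) (Fin n → ZMod q) ℂ where
  toFun g := Matrix.of fun u v =>
    if v = act i₀ j₀ (ψ g) u then (ZMod.stdAddChar (a * rm i₀ j₀ (ψ g) u j₀) : ℂ) else 0
  map_one' := by
    ext u v
    rw [map_one, Matrix.of_apply, act_one hij, rm_one hij, mul_zero, AddChar.map_zero_eq_one,
      Matrix.one_apply]
    simp only [eq_comm]
  map_mul' g h := by
    ext u w
    rw [Matrix.mul_apply]
    simp only [Matrix.of_apply]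
    rw [Finset.sum_eq_single (act i₀ j₀ (ψ g) u)]
    · rw [if_pos rfl, map_mul, act_mul hij (hψ g) (hψ h), rm_mul_last hij (hψ g) (hψ h), mul_add,
        AddChar.map_add_eq_mul]
      split_ifs
      · rfl
      · rw [mul_zero]
    · intro v _ hv
      rw [if_neg hv, zero_mul]
    · intro h
      exact absurd (Finset.mem_univ _) h

theorem mrep_apply (q : ℕ) [NeZero q] (ψ : G →* Matrix (Fin n) (Fin n) ℤ)
    (hψ : ∀ g, Uni (ψ g)) (i₀ j₀ : Fin n) (hij : i₀ < j₀) (a : ZMod q) (g : G)
    (u v : Fin n → ZMod q) : mrep q ψ hψ i₀ j₀ hij a g u v =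
    if v = act i₀ j₀ (ψ g) u then (ZMod.stdAddChar (a * rm i₀ j₀ (ψ g) u j₀) : ℂ) else 0 := rfl

theorem mrep_isU (q : ℕ) [NeZero q] (ψ : G →* Matrix (Fin n) (Fin n) ℤ)
    (hψ : ∀ g, Uni (ψ g)) (i₀ j₀ : Fin n) (hij : i₀ < j₀) (a : ZMod q) :
    IsU (mrep q ψ hψ i₀ j₀ hij a) := by
  have hinv : ∀ (g : G) (u : Fin n → ZMod q), act i₀ j₀ (ψ g⁻¹) (act i₀ j₀ (ψ g) u) = u := by
    intro g u
    rw [← act_mul hij (hψ g) (hψ g⁻¹), ← map_mul, mul_inv_cancel, map_one, act_one hij]
  intro g
  ext u v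
  rw [conjTranspose_apply, mrep_apply, mrep_apply]
  by_cases h : u = act i₀ j₀ (ψ g) v
  · have h1 : v = act i₀ j₀ (ψ g⁻¹) u := by rw [h, hinv]
    rw [if_pos h, if_pos h1]
    have h2 := rm_mul_last (q := q) hij (hψ g) (hψ g⁻¹) v
    rw [← map_mul, mul_inv_cancel, map_one, rm_one hij, ← h] at h2
    have h3 : a * rm i₀ j₀ (ψ g⁻¹) u j₀ = -(a * rm i₀ j₀ (ψ g) v j₀) := by
      have h4 : rm i₀ j₀ (ψ g⁻¹) u j₀ = -rm i₀ j₀ (ψ g) v j₀ := by
        rw [eq_neg_iff_add_eq_zero, add_comm]
        exact h2.symm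
      rw [h4, mul_neg]
    rw [h3, AddChar.map_neg_eq_conj]
    rfl
  · rw [if_neg h, if_neg, star_zero]
    intro hc
    apply h
    have h5 := hinv g⁻¹ u
    rw [inv_inv, ← hc] at h5
    exact h5.symm

theorem mrep_trace (q : ℕ) [NeZero q] (ψ : G →* Matrix (Fin n) (Fin n) ℤ)
    (hψ : ∀ g, Uni (ψ g)) (i₀ j₀ : Fin n) (hij : i₀ < j₀) (a : ZMod q) (g : G)
    (hs : ∀ i j : Fin n, i < j → (j : ℕ) - i < (j₀ : ℕ) - i₀ → ψ g i j = 0) :
    (mrep q ψ hψ i₀ j₀ hij a g).trace =
      (Fintype.card (Fin n → ZMod q) : ℂ) * ZMod.stdAddChar (a * (ψ g i₀ j₀ : ZMod q)) := by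
  rw [Matrix.trace]
  have h1 : ∀ u : Fin n → ZMod q, (mrep q ψ hψ i₀ j₀ hij a g).diag u =
      ZMod.stdAddChar (a * (ψ g i₀ j₀ : ZMod q)) := by
    intro u
    rw [diag_apply, mrep_apply, act_of_small hij (hψ g) hs u, if_pos rfl,
      (rm_of_small hij (hψ g) hs u).2]
  rw [Finset.sum_congr rfl (fun u _ => h1 u), Finset.sum_const, Finset.card_univ, nsmul_eq_mul]

/-- polynomial growth of the entries of words -/
theorem word_bound (ψ : G →* Matrix (Fin n) (Fin n) ℤ) (hψ : ∀ g, Uni (ψ g)) (S : Finset G) :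
    ∃ C w : ℕ, ∀ (i j : Fin n) (K : ℕ) (g : G), g ∈ Wd (S : Set G) K →
      |ψ g i j| ≤ ((C * (K + 1) ^ w : ℕ) : ℤ) := by
  classical
  set b : ℕ := ∑ s ∈ S, ∑ i, ∑ j, (ψ s i j).natAbs with hb
  have hbb : ∀ s ∈ S, ∀ i j, |ψ s i j| ≤ (b : ℤ) := by
    intro s hs i j
    rw [Int.abs_eq_natAbs, Int.ofNat_le]
    calc (ψ s i j).natAbs ≤ ∑ j, (ψ s i j).natAbs :=
          Finset.single_le_sum (f := fun j => (ψ s i j).natAbs) (fun _ _ => Nat.zero_le _)
            (Finset.mem_univ j)
      _ ≤ ∑ i, ∑ j, (ψ s i j).natAbs :=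
          Finset.single_le_sum (f := fun i => ∑ j, (ψ s i j).natAbs) (fun _ _ => Nat.zero_le _)
            (Finset.mem_univ i)
      _ ≤ b := Finset.single_le_sum (f := fun s => ∑ i, ∑ j, (ψ s i j).natAbs)
            (fun _ _ => Nat.zero_le _) hs
  have key : ∀ l : List G, (∀ s ∈ l, s ∈ S) → ∀ i j : Fin n, i ≤ j →
      |ψ l.prod i j| ≤ (1 + (l.length : ℤ) * (n * b)) ^ ((j : ℕ) - i) := by
    intro l
    induction l with
    | nil =>
      intro _ i j hij
      rw [List.prod_nil, map_one, Matrix.one_apply, List.length_nil]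
      split_ifs <;> simp
    | cons s l ih =>
      intro hl i j hij
      have ih' := ih (fun s hs => hl s (List.mem_cons_of_mem _ hs))
      have hs := hl s List.mem_cons_self
      rcases eq_or_lt_of_le hij with h | h
      · subst h
        rw [hψ _ i i le_rfl, if_pos rfl, Nat.sub_self, pow_zero]
        simp
      · set y : ℤ := 1 + (l.length : ℤ) * (n * b) with hy
        have hy1 : 1 ≤ y := by
          have : (0 : ℤ) ≤ (l.length : ℤ) * (n * b) := by positivity
          omega
        rw [List.prod_cons, map_mul, Matrix.mul_apply, List.length_cons]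
        have h1 : ∀ k : Fin n, |ψ s i k * ψ l.prod k j| ≤
            if k = i then y ^ ((j : ℕ) - i) else b * y ^ ((j : ℕ) - i - 1) := by
          intro k
          by_cases hk : k = i
          · subst hk
            rw [if_pos rfl, hψ s k k le_rfl, if_pos rfl, one_mul]
            exact ih' k j hij
          · rw [if_neg hk]
            by_cases hk2 : k ≤ i
            · rw [hψ s i k hk2, if_neg (Ne.symm hk), zero_mul, abs_zero]
              positivity
            · by_cases hk3 : k ≤ j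
              · rw [abs_mul]
                apply mul_le_mul (hbb s hs i k) _ (abs_nonneg _) (by positivity)
                refine (ih' k j hk3).trans ?_
                apply pow_le_pow_right₀ hy1
                have : (i : ℕ) < k := not_le.1 hk2
                omega
              · rw [hψ l.prod k j (not_le.1 hk3).le, if_neg (fun hc => hk3 hc.le), mul_zero,
                  abs_zero]
                positivity
        refine (Finset.abs_sum_le_sum_abs _ _).trans ?_
        refine (Finset.sum_le_sum fun k _ => h1 k).trans ?_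
        have h2 : ∑ k : Fin n, (if k = i then y ^ ((j : ℕ) - i) else b * y ^ ((j : ℕ) - i - 1)) ≤
            y ^ ((j : ℕ) - i) + n * (b * y ^ ((j : ℕ) - i - 1)) := by
          calc _ ≤ ∑ k : Fin n, ((if k = i then y ^ ((j : ℕ) - i) else 0) +
                b * y ^ ((j : ℕ) - i - 1)) := by
                refine Finset.sum_le_sum fun k _ => ?_
                split_ifs
                · have : (0:ℤ) ≤ b * y ^ ((j : ℕ) - i - 1) := by positivity
                  linarith
                · rw [zero_add]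
            _ = _ := by
                rw [Finset.sum_add_distrib, Finset.sum_ite_eq', if_pos (Finset.mem_univ _),
                  Finset.sum_const, Finset.card_univ, Fintype.card_fin, nsmul_eq_mul]
        refine h2.trans ?_
        have hd : ((j : ℕ) - i) = ((j : ℕ) - i - 1) + 1 := by
          have : (i : ℕ) < j := h
          omega
        have h3 : (1 + ((l.length + 1 : ℕ) : ℤ) * (n * b)) = y + n * b := by
          rw [hy]
          push_cast
          ring
        rw [h3]
        set e := (j : ℕ) - i - 1 with he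
        rw [hd]
        calc y ^ (e + 1) + n * (b * y ^ e) = y ^ e * (y + n * b) := by ring
          _ ≤ (y + n * b) ^ e * (y + n * b) := by
              apply mul_le_mul_of_nonneg_right _ (by positivity)
              apply pow_le_pow_left₀ (by positivity)
              have : (0 : ℤ) ≤ n * b := by positivity
              linarith
          _ = (y + n * b) ^ (e + 1) := (pow_succ _ _).symm
  refine ⟨(n * b + 1) ^ n, n, ?_⟩
  rintro i j K g ⟨l, hl1, hl2, rfl⟩
  have hpos : (1 : ℤ) ≤ (((n * b + 1) ^ n * (K + 1) ^ n : ℕ) : ℤ) := by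
    exact_mod_cast Nat.one_le_iff_ne_zero.2 (by positivity)
  rcases lt_or_ge j i with h | h
  · rw [hψ _ i j h.le, if_neg h.ne']
    rw [abs_zero]
    linarith
  · refine (key l (fun s hs => by simpa using hl2 s hs) i j h).trans ?_
    have h1 : (1 + (l.length : ℤ) * (n * b)) ≤ (n * b + 1) * (K + 1) := by
      have h2 : (l.length : ℤ) ≤ K := by exact_mod_cast hl1
      have h3 : (0 : ℤ) ≤ n * b := by positivity
      nlinarith
    have h2 : (1 : ℤ) ≤ (n * b + 1) * (K + 1) := by
      have h3 : (0 : ℤ) ≤ n * b := by positivity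
      have h4 : (0 : ℤ) ≤ K := by positivity
      nlinarith
    calc (1 + (l.length : ℤ) * (n * b)) ^ ((j : ℕ) - i) ≤
        (((n : ℤ) * b + 1) * (K + 1)) ^ ((j : ℕ) - i) :=
          pow_le_pow_left₀ (by positivity) h1 _
      _ ≤ (((n : ℤ) * b + 1) * (K + 1)) ^ n := by
          apply pow_le_pow_right₀ h2
          omega
      _ = _ := by
          push_cast
          rw [mul_pow]

end rep

end Pool.Agent.H748.Sig
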