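import Pool.Agent.H748.Sig.Supp
import Pool.Agent.H748.Sig.Diff
import Pool.Agent.H748.Sig.Newton

/-!
# The central step
-/

set_option autoImplicit false
set_option linter.unusedSectionVars false

namespace Pool.Agent.H748.Sig

open Polynomial Matrix Filter

variable {G : Type*} [Group G]

/-- indicator function with complex values -/
noncomputable def ind (N : Set G) : G → ℂ := open Classical in fun g => if g ∈ N then 1 else 0

/-- distribution of the values of `φ` on `N` -/
noncomputable def yy (N : Set G) (φ : G → ℤ) (x : MonoidAlgebra ℂ G) : ℤ →₀ ℂ :=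
  open Classical in (x.coeff.filter (· ∈ N)).mapDomain φ

theorem T_yy (N : Set G) (φ : G → ℤ) (w : ℤ → ℂ) (x : MonoidAlgebra ℂ G) :
    T (fun g => ind N g * w (φ g)) x = (yy N φ x).sum fun j c => c * w j := by
  classical
  rw [yy, Finsupp.sum_mapDomain_index (by intro; rw [zero_mul]) (by intro _ _ _; rw [add_mul]),
    T_apply, Finsupp.sum, Finsupp.sum, Finsupp.support_filter, Finset.sum_filter]
  refine Finset.sum_congr rfl fun g _ => ?_
  by_cases h : g ∈ N
  · rw [if_pos h, Finsupp.filter_apply_pos _ _ h, ind, if_pos h, one_mul]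
  · rw [if_neg h, ind, if_neg h, zero_mul, mul_zero]

theorem yy_support {N : Set G} {φ : G → ℤ} {x : MonoidAlgebra ℂ G} {j : ℤ}
    (hj : j ∈ (yy N φ x).support) : ∃ g, x.coeff g ≠ 0 ∧ φ g = j := by
  classical
  have h1 := Finsupp.mapDomain_support hj
  obtain ⟨g, hg, rfl⟩ := Finset.mem_image.1 h1
  rw [Finsupp.support_filter, Finset.mem_filter, Finsupp.mem_support_iff] at hg
  exact ⟨g, hg.1, rfl⟩

theorem Gap.mono {X : Type*} [Fintype X] [DecidableEq X] {M : Matrix X X ℂ} {a b b' : ℝ}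
    (h : Gap M a b) (hb : b ≤ b') : Gap M a b' :=
  fun x v hv hM => ⟨(h x v hv hM).1, (h x v hv hM).2.trans hb⟩

theorem step (N : Set G) (φ : G → ℤ) (k : ℕ)
    (hrep : ∀ q : ℕ, 0 < q → ∃ (κ : Type) (_ : Fintype κ) (_ : DecidableEq κ),
      0 < Fintype.card κ ∧ Fintype.card κ ≤ q ^ k ∧ ∀ a : ZMod q, ∃ ρ : G →* Matrix κ κ ℂ,
        IsU ρ ∧ ∀ _ : NeZero q, ∀ g ∈ N, (ρ g).trace =
          (Fintype.card κ : ℂ) * ZMod.stdAddChar (a * (φ g : ZMod q)))
    (hdist : ∀ S : Finset G, ∃ C w : ℕ, ∀ (K : ℕ) (g : G), g ∈ Wd (S : Set G) K →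
      |φ g| ≤ ((C * (K + 1) ^ w : ℕ) : ℤ))
    (h : Cl (ind N)) : Cl (ind {g | g ∈ N ∧ φ g = 0}) := by
  classical
  intro ι _ _ A a b ha hA hg P ε hP
  set m : ℝ := (Fintype.card ι : ℝ) with hm
  have hm0 : 0 ≤ m := by positivity
  set b' : ℝ := max a b with hb'
  have hb'0 : 0 < b' := lt_of_lt_of_le ha (le_max_left a b)
  have hg' : GapA A a b' := fun κ _ _ ρ hρ => (hg κ ρ hρ).mono (le_max_right a b)
  set q0 : ℝ := 1 - a ^ 2 / b' ^ 2 with hq0
  have hq00 : 0 ≤ q0 := by
    rw [hq0, sub_nonneg, div_le_one (by positivity)]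
    exact pow_le_pow_left₀ ha.le (le_max_left a b) 2
  have hq01 : q0 < 1 := by
    rw [hq0]
    have : 0 < a ^ 2 / b' ^ 2 := by positivity
    linarith
  obtain ⟨S, hS⟩ := exists_msup A
  obtain ⟨C, w, hC⟩ := hdist S
  -- the bound for the support of the polynomial `P`
  set xP := (aeval A P).trace with hxP
  set DP : ℕ := ∑ j ∈ (yy N φ xP).support, j.natAbs with hDP
  have hDP' : ∀ j ∈ (yy N φ xP).support, |j| ≤ DP := by
    intro j hj
    rw [Int.abs_eq_natAbs, Int.ofNat_le]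
    exact Finset.single_le_sum (f := fun j : ℤ => j.natAbs) (fun _ _ => Nat.zero_le _) hj
  obtain ⟨n, q, hn1, hn2, hn3⟩ := params k C w m q0 hm0 hq00 hq01 (2 * DP)
  have hqpos : 0 < q := by omega
  haveI : NeZero q := ⟨hqpos.ne'⟩
  obtain ⟨κ, _, _, hd0, hdq, hρ'⟩ := hrep q hqpos
  choose ρ hρU hρt using hρ'
  set d : ℕ := Fintype.card κ with hd
  have hdR : (0 : ℝ) < d := by exact_mod_cast hd0
  have hdC : (d : ℂ) ≠ 0 := by exact_mod_cast hd0.ne'
  let s : ZMod q → ℤ := fun c => sig (ev (ρ c) A)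
  -- closeness for all polynomials
  have hclose : ∀ (R : ℝ[X]) (η : ℝ) (B : ℝ), GapA A a B → Appr R a B η → ∀ c : ZMod q,
      ‖((yy N φ (aeval A R).trace).sum fun j z => z * ZMod.stdAddChar (c * (j : ZMod q))) -
        (s c : ℂ) / d‖ ≤ m * η := by
    intro R η B hB hR c
    have h1 := h.tw ha hA hB (hρU c) hR
    have h2 : (fun g => ind N g * (ρ c g).trace) =
        fun g => ind N g * ((d : ℂ) * ZMod.stdAddChar (c * (φ g : ZMod q))) := by
      funext g
      by_cases hgN : g ∈ N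
      · rw [hρt c inferInstance g hgN]
      · rw [ind, if_neg hgN, zero_mul, zero_mul]
    rw [TT_eq, h2, T_yy N φ (fun j => (d : ℂ) * ZMod.stdAddChar (c * (j : ZMod q)))] at h1
    have h3 : ((yy N φ (aeval A R).trace).sum fun j z =>
        z * ((d : ℂ) * ZMod.stdAddChar (c * (j : ZMod q)))) = d *
        ((yy N φ (aeval A R).trace).sum fun j z => z * ZMod.stdAddChar (c * (j : ZMod q))) := by
      rw [Finsupp.mul_sum]
      refine Finsupp.sum_congr fun j _ => ?_
      ring
    rw [h3] at h1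
    set F := ((yy N φ (aeval A R).trace).sum fun j z => z * ZMod.stdAddChar (c * (j : ZMod q)))
      with hF
    have h4 : F - (s c : ℂ) / d = (d * F - (s c : ℂ)) / d := by
      field_simp
    rw [h4, norm_div, Complex.norm_natCast, div_le_iff₀ hdR]
    calc _ ≤ _ := h1
      _ = m * η * d := by rw [hm, hd]; ring
  have hs_le : ∀ c : ZMod q, ‖(s c : ℂ) / d‖ ≤ m := by
    intro c
    rw [norm_div, Complex.norm_natCast, div_le_iff₀ hdR, Complex.norm_intCast]
    have h1 := abs_sig_le (ev (ρ c) A)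
    rw [Fintype.card_prod, Nat.cast_mul] at h1
    exact h1
  -- the function `s` is constant
  have hconst : ∀ c, s c = s 0 := by
    set D : ℕ := C * (3 ^ n + 1) ^ w with hD
    set η : ℝ := m * q0 ^ (2 ^ n) with hη
    have hQ := hclose (Q b' n) (q0 ^ (2 ^ n)) b' hg' (appr_Q ha n)
    set y := yy N φ (aeval A (Q b' n)).trace with hy
    have hyD : ∀ j ∈ y.support, |j| ≤ D := by
      intro j hj
      obtain ⟨g, hg1, rfl⟩ := yy_support hj
      apply hC (3 ^ n) g
      exact (hS.aeval (natDegree_Q b' n)).trace g hg1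
    have hF : ∀ c : ZMod q, ‖y.sum fun j z => z * ZMod.stdAddChar (c * (j : ZMod q))‖ ≤
        m * (1 + q0 ^ (2 ^ n)) := by
      intro c
      have h1 := hQ c
      calc _ = ‖((y.sum fun j z => z * ZMod.stdAddChar (c * (j : ZMod q))) - (s c : ℂ) / d) +
            (s c : ℂ) / d‖ := by rw [sub_add_cancel]
        _ ≤ _ := norm_add_le _ _
        _ ≤ m * q0 ^ (2 ^ n) + m := add_le_add h1 (hs_le c)
        _ = _ := by ring
    have hB0 : 0 ≤ m * (1 + q0 ^ (2 ^ n)) := by positivity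
    have hit := iter_char_le (k + 1) y D hyD hn2 _ hB0 hF
    refine const_of_close (k + 1) d hd0 s _ _ _ hQ hit ?_
    refine lt_of_le_of_lt ?_ hn3
    apply mul_le_mul_of_nonneg_right
    · exact_mod_cast hdq
    · positivity
  -- the value at zero
  have hzero : (s 0 : ℂ) / d = (sig (aug A) : ℂ) := by
    have h1 : ∀ r : ℕ, ‖(s 0 : ℂ) / d - (sig (aug A) : ℂ)‖ ≤ 2 * m * ((1 : ℝ) ^ r * q0 ^ (2 ^ r)) := by
      intro r
      have h2 := hclose (Q b' r) (q0 ^ (2 ^ r)) b' hg' (appr_Q ha r) 0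
      have h3 := h ι A a b' ha hA hg' (Q b' r) (q0 ^ (2 ^ r)) (appr_Q ha r)
      have h4 : ((yy N φ (aeval A (Q b' r)).trace).sum fun j z =>
          z * ZMod.stdAddChar ((0 : ZMod q) * (j : ZMod q))) = TT (ind N) (aeval A (Q b' r)) := by
        have h5 := T_yy N φ (fun _ => 1) (aeval A (Q b' r)).trace
        have h6 : (fun g => ind N g * (fun _ : ℤ => (1 : ℂ)) (φ g)) = ind N := by
          funext g
          rw [mul_one]
        rw [h6, ← TT_eq] at h5
        rw [h5]
        refine Finsupp.sum_congr fun j _ => ?_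
        rw [zero_mul, AddChar.map_zero_eq_one]
      rw [h4] at h2
      calc _ = ‖(TT (ind N) (aeval A (Q b' r)) - (sig (aug A) : ℂ)) -
            (TT (ind N) (aeval A (Q b' r)) - (s 0 : ℂ) / d)‖ := by
              congr 1
              ring
        _ ≤ _ := norm_sub_le _ _
        _ ≤ m * q0 ^ (2 ^ r) + m * q0 ^ (2 ^ r) := add_le_add h3 h2
        _ = _ := by rw [one_pow]; ring
    have h2 : Tendsto (fun r : ℕ => 2 * m * ((1 : ℝ) ^ r * q0 ^ (2 ^ r))) atTop
        (nhds (2 * m * 0)) := (tendsto_dexp 1 q0 zero_le_one hq00 hq01).const_mul _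
    rw [mul_zero] at h2
    have h3 : ‖(s 0 : ℂ) / d - (sig (aug A) : ℂ)‖ ≤ 0 :=
      ge_of_tendsto' h2 h1
    exact sub_eq_zero.1 (norm_le_zero_iff.1 h3)
  -- conclusion
  have hP1 := hclose P ε b hg hP
  have hinv := inversion (q := q) (yy N φ xP) DP hDP' hn1 0 (by simp)
  have hT : TT (ind {g | g ∈ N ∧ φ g = 0}) (aeval A P) = yy N φ xP 0 := by
    rw [TT_eq, ← hxP]
    have h5 := T_yy N φ (fun j => if j = 0 then 1 else 0) xP
    have h6 : (fun g => ind N g * (fun j : ℤ => if j = 0 then (1 : ℂ) else 0) (φ g)) =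
        ind {g | g ∈ N ∧ φ g = 0} := by
      funext g
      simp only [ind, Set.mem_setOf_eq]
      by_cases h1 : g ∈ N <;> by_cases h2 : φ g = 0 <;> simp [h1, h2]
    rw [h6] at h5
    rw [h5, Finsupp.sum]
    simp only [mul_ite, mul_one, mul_zero]
    rw [Finset.sum_ite_eq']
    split_ifs with h7
    · rfl
    · rw [Finsupp.notMem_support_iff.1 h7]
  have hqR : (0 : ℝ) < q := by exact_mod_cast hqpos
  have hqC : (q : ℂ) ≠ 0 := by exact_mod_cast hqpos.ne'
  rw [hT]
  have h8 : (q : ℂ) * (yy N φ xP 0 - (sig (aug A) : ℂ)) = ∑ c : ZMod q,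
      (((yy N φ xP).sum fun j z => z * ZMod.stdAddChar (c * (j : ZMod q))) - (s c : ℂ) / d) := by
    rw [mul_sub, ← hinv, Finset.sum_sub_distrib]
    congr 1
    · refine Finset.sum_congr rfl fun c _ => ?_
      rw [neg_zero, Int.cast_zero, mul_zero, AddChar.map_zero_eq_one, mul_one]
    · rw [← hzero, Finset.sum_congr rfl (fun c _ => by rw [hconst c]), Finset.sum_const,
        Finset.card_univ, ZMod.card, nsmul_eq_mul]
  have h9 : ‖(q : ℂ) * (yy N φ xP 0 - (sig (aug A) : ℂ))‖ ≤ q * (m * ε) := by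
    rw [h8]
    refine (norm_sum_le _ _).trans ?_
    refine (Finset.sum_le_sum fun c _ => hP1 c).trans ?_
    rw [Finset.sum_const, Finset.card_univ, ZMod.card, nsmul_eq_mul]
  rw [norm_mul, Complex.norm_natCast] at h9
  exact le_of_mul_le_mul_left h9 hqR

end Pool.Agent.H748.Sig
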