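import Pool.Agent.H748.Sig.Claim

/-!
# Supports of polynomials in a matrix over a group algebra
-/

set_option autoImplicit false
set_option linter.unusedSectionVars false

namespace Pool.Agent.H748.Sig

open Polynomial Matrix

variable {G : Type*} [Group G]

/-- products of at most `K` elements of `S` -/
def Wd (S : Set G) (K : ℕ) : Set G :=
  {g | ∃ l : List G, l.length ≤ K ∧ (∀ s ∈ l, s ∈ S) ∧ l.prod = g}

theorem Wd.mono {S : Set G} {K L : ℕ} (h : K ≤ L) {g : G} (hg : g ∈ Wd S K) : g ∈ Wd S L := by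
  obtain ⟨l, h1, h2, h3⟩ := hg
  exact ⟨l, h1.trans h, h2, h3⟩

theorem Wd.mul {S : Set G} {K L : ℕ} {g h : G} (hg : g ∈ Wd S K) (hh : h ∈ Wd S L) :
    g * h ∈ Wd S (K + L) := by
  obtain ⟨l, h1, h2, h3⟩ := hg
  obtain ⟨m, k1, k2, k3⟩ := hh
  refine ⟨l ++ m, by rw [List.length_append]; omega, ?_, by rw [List.prod_append, h3, k3]⟩
  intro s hs
  rcases List.mem_append.1 hs with h | h
  · exact h2 s h
  · exact k2 s h

theorem Wd.one {S : Set G} (K : ℕ) : (1 : G) ∈ Wd S K :=
  ⟨[], Nat.zero_le _, by simp, rfl⟩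

theorem Wd.of_mem {S : Set G} {g : G} (hg : g ∈ S) : g ∈ Wd S 1 :=
  ⟨[g], by simp, by simpa using hg, by simp⟩

/-- the support consists of words of length at most `K` -/
def SupIn (S : Set G) (K : ℕ) (x : MonoidAlgebra ℂ G) : Prop := ∀ g, x.coeff g ≠ 0 → g ∈ Wd S K

theorem SupIn.zero (S : Set G) (K : ℕ) : SupIn S K 0 := fun _ hg => absurd rfl hg

theorem SupIn.add {S : Set G} {K : ℕ} {x y : MonoidAlgebra ℂ G} (hx : SupIn S K x)
    (hy : SupIn S K y) : SupIn S K (x + y) := by
  intro g hg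
  by_contra hc
  have h1 : x.coeff g = 0 := by
    by_contra h
    exact hc (hx g h)
  have h2 : y.coeff g = 0 := by
    by_contra h
    exact hc (hy g h)
  apply hg
  rw [MonoidAlgebra.coeff_add, Finsupp.add_apply, h1, h2, add_zero]

theorem SupIn.sum {S : Set G} {K : ℕ} {α : Type*} (s : Finset α) {x : α → MonoidAlgebra ℂ G}
    (hx : ∀ a ∈ s, SupIn S K (x a)) : SupIn S K (∑ a ∈ s, x a) := by
  classical
  induction s using Finset.induction_on with
  | empty => exact SupIn.zero S K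
  | insert a s ha ih =>
    rw [Finset.sum_insert ha]
    exact (hx a (Finset.mem_insert_self a s)).add
      (ih fun b hb => hx b (Finset.mem_insert_of_mem hb))

theorem SupIn.smul {S : Set G} {K : ℕ} {x : MonoidAlgebra ℂ G} (hx : SupIn S K x) (c : ℝ) :
    SupIn S K (c • x) := by
  intro g hg
  apply hx g
  intro h0
  apply hg
  rw [MonoidAlgebra.coeff_smul, Finsupp.smul_apply, h0, smul_zero]

theorem SupIn.mul {S : Set G} {K L : ℕ} {x y : MonoidAlgebra ℂ G} (hx : SupIn S K x)
    (hy : SupIn S L y) : SupIn S (K + L) (x * y) := by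
  classical
  intro g hg
  have h1 := MonoidAlgebra.support_coeff_mul_subset x y (Finsupp.mem_support_iff.2 hg)
  obtain ⟨a, ha, b, hb, rfl⟩ := Finset.mem_mul.1 h1
  exact Wd.mul (hx a (Finsupp.mem_support_iff.1 ha)) (hy b (Finsupp.mem_support_iff.1 hb))

theorem SupIn.one {S : Set G} (K : ℕ) : SupIn S K 1 := by
  classical
  intro g hg
  rw [MonoidAlgebra.one_def, MonoidAlgebra.coeff_single, Finsupp.single_apply] at hg
  split_ifs at hg with h
  · rw [← h]
    exact Wd.one K
  · exact absurd rfl hg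

theorem SupIn.mono {S : Set G} {K L : ℕ} (h : K ≤ L) {x : MonoidAlgebra ℂ G}
    (hx : SupIn S K x) : SupIn S L x := fun g hg => Wd.mono h (hx g hg)

variable {ι : Type} [Fintype ι] [DecidableEq ι]

/-- the support of all entries -/
def MSup (S : Set G) (K : ℕ) (A : Matrix ι ι (MonoidAlgebra ℂ G)) : Prop :=
  ∀ i j, SupIn S K (A i j)

theorem MSup.mul {S : Set G} {K L : ℕ} {A B : Matrix ι ι (MonoidAlgebra ℂ G)}
    (hA : MSup S K A) (hB : MSup S L B) : MSup S (K + L) (A * B) := by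
  intro i j
  rw [Matrix.mul_apply]
  exact SupIn.sum _ fun k _ => (hA i k).mul (hB k j)

theorem MSup.one {S : Set G} (K : ℕ) : MSup S K (1 : Matrix ι ι (MonoidAlgebra ℂ G)) := by
  intro i j
  rw [Matrix.one_apply]
  split_ifs
  · exact SupIn.one K
  · exact SupIn.zero S K

theorem MSup.pow {S : Set G} {A : Matrix ι ι (MonoidAlgebra ℂ G)} (hA : MSup S 1 A) (n : ℕ) :
    MSup S n (A ^ n) := by
  induction n with
  | zero => rw [pow_zero]; exact MSup.one 0
  | succ n ih => rw [pow_succ]; exact ih.mul hA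

theorem MSup.aeval {S : Set G} {A : Matrix ι ι (MonoidAlgebra ℂ G)} (hA : MSup S 1 A)
    {P : ℝ[X]} {K : ℕ} (hP : P.natDegree ≤ K) : MSup S K (aeval A P) := by
  intro i j
  rw [aeval_eq_sum_range, Matrix.sum_apply]
  refine SupIn.sum _ fun n hn => ?_
  rw [Matrix.smul_apply]
  refine (SupIn.smul ?_ _)
  exact ((hA.pow n) i j).mono (by
    have := Finset.mem_range.1 hn
    omega)

theorem MSup.trace {S : Set G} {K : ℕ} {A : Matrix ι ι (MonoidAlgebra ℂ G)} (hA : MSup S K A) :
    SupIn S K A.trace := SupIn.sum _ fun i _ => hA i i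

theorem exists_msup (A : Matrix ι ι (MonoidAlgebra ℂ G)) : ∃ S : Finset G, MSup (S : Set G) 1 A := by
  classical
  refine ⟨Finset.univ.biUnion fun i => Finset.univ.biUnion fun j => (A i j).coeff.support, ?_⟩
  intro i j g hg
  apply Wd.of_mem
  rw [Finset.mem_coe, Finset.mem_biUnion]
  refine ⟨i, Finset.mem_univ i, ?_⟩
  rw [Finset.mem_biUnion]
  exact ⟨j, Finset.mem_univ j, Finsupp.mem_support_iff.2 hg⟩

end Pool.Agent.H748.Sig
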