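import Pool.Agent.H748.Sig.Kill
import Pool.Graph.R_pool_sql_team_seeded_f72693b1.W348.RG.Jen
import Mathlib.SetTheory.Cardinal.Free

/-!
# Finitely generated residually torsion-free nilpotent groups are residually unitriangular

(following `Pool.Agent.H414.W1.Tfn` of helper414; Jennings' theorem is the library module
`W348.RG.Jen`)
-/

set_option autoImplicit false
set_option linter.unusedSectionVars false

namespace Pool.Agent.H748.Sig

open Finset

section int

variable {H : Type*} [Group H]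

/-- conjugation of a rational unitriangular representation into the integers -/
theorem integral [hfg : Group.FG H] {m : ℕ} (ρ : H →* Matrix (Fin m) (Fin m) ℚ)
    (uni : ∀ g i j, j ≤ i → ρ g i j = if i = j then 1 else 0) :
    ∃ ψ : H →* Matrix (Fin m) (Fin m) ℤ, (∀ g, Uni (ψ g)) ∧ ∀ g, ρ g ≠ 1 → ψ g ≠ 1 := by
  classical
  obtain ⟨S, hS⟩ : ∃ S : Finset H, Submonoid.closure (S : Set H) = ⊤ :=
    Monoid.fg_def.1 (Group.fg_iff_monoid_fg.1 hfg)
  set N : ℕ := ∏ s ∈ S, ∏ i, ∏ j, (ρ s i j).den with hN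
  have hN0 : N ≠ 0 := by
    rw [hN]
    refine Finset.prod_ne_zero_iff.2 (fun s _ => Finset.prod_ne_zero_iff.2 (fun i _ =>
      Finset.prod_ne_zero_iff.2 (fun j _ => (ρ s i j).den_ne_zero)))
  have hNq : (N : ℚ) ≠ 0 := by exact_mod_cast hN0
  have hden : ∀ s ∈ S, ∀ i j, ∃ z : ℤ, (z : ℚ) = (N : ℚ) * ρ s i j := by
    intro s hs i j
    have h1 : (ρ s i j).den ∣ N :=
      ((Finset.dvd_prod_of_mem (fun j => (ρ s i j).den) (mem_univ j)).trans
        (Finset.dvd_prod_of_mem (fun i => ∏ j, (ρ s i j).den) (mem_univ i))).trans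
        (Finset.dvd_prod_of_mem (fun s => ∏ i, ∏ j, (ρ s i j).den) hs)
    obtain ⟨c, hc⟩ := h1
    refine ⟨(ρ s i j).num * c, ?_⟩
    have h2 : ρ s i j * ((ρ s i j).den : ℚ) = ((ρ s i j).num : ℚ) := Rat.mul_den_eq_num _
    rw [hc]
    push_cast
    rw [← h2]
    ring
  let D : H → Fin m → Fin m → ℚ := fun g i j => (N : ℚ) ^ (((j : ℕ) : ℤ) - ((i : ℕ) : ℤ)) * ρ g i j
  have hDmul : ∀ g h i j, D (g * h) i j = ∑ k, D g i k * D h k j := by
    intro g h i j
    show (N : ℚ) ^ (((j : ℕ) : ℤ) - ((i : ℕ) : ℤ)) * ρ (g * h) i j = _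
    rw [map_mul, Matrix.mul_apply, Finset.mul_sum]
    apply Finset.sum_congr rfl
    intro k _
    have h1 : (N : ℚ) ^ (((j : ℕ) : ℤ) - ((i : ℕ) : ℤ)) =
        (N : ℚ) ^ (((k : ℕ) : ℤ) - ((i : ℕ) : ℤ)) * (N : ℚ) ^ (((j : ℕ) : ℤ) - ((k : ℕ) : ℤ)) := by
      rw [← zpow_add₀ hNq]
      congr 1
      ring
    show _ = (N : ℚ) ^ (((k : ℕ) : ℤ) - ((i : ℕ) : ℤ)) * ρ g i k *
      ((N : ℚ) ^ (((j : ℕ) : ℤ) - ((k : ℕ) : ℤ)) * ρ h k j)
    rw [h1]
    ring
  have hDlow : ∀ g i j, j ≤ i → D g i j = if i = j then 1 else 0 := by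
    intro g i j hij
    show (N : ℚ) ^ (((j : ℕ) : ℤ) - ((i : ℕ) : ℤ)) * ρ g i j = _
    rw [uni g i j hij]
    by_cases h : i = j
    · rw [if_pos h, h, sub_self, zpow_zero, one_mul]
    · rw [if_neg h, mul_zero]
  have hD1 : ∀ i j, D 1 i j = if i = j then 1 else 0 := by
    intro i j
    by_cases h : i = j
    · rw [hDlow 1 i j (by rw [h])]
    · show (N : ℚ) ^ (((j : ℕ) : ℤ) - ((i : ℕ) : ℤ)) * ρ 1 i j = _
      rw [map_one, Matrix.one_apply_ne h, if_neg h, mul_zero]
  have hint : ∀ g : H, ∀ i j, ∃ z : ℤ, (z : ℚ) = D g i j := by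
    intro g
    have hg : g ∈ Submonoid.closure (S : Set H) := by
      rw [hS]
      exact Submonoid.mem_top g
    induction hg using Submonoid.closure_induction with
    | mem s hs =>
      intro i j
      by_cases hij : j ≤ i
      · rw [hDlow s i j hij]
        by_cases h : i = j
        · exact ⟨1, by rw [if_pos h, Int.cast_one]⟩
        · exact ⟨0, by rw [if_neg h, Int.cast_zero]⟩
      · push Not at hij
        obtain ⟨z, hz⟩ := hden s hs i j
        have hij' : (i : ℕ) < (j : ℕ) := hij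
        refine ⟨(N : ℤ) ^ ((j : ℕ) - (i : ℕ) - 1) * z, ?_⟩
        show _ = (N : ℚ) ^ (((j : ℕ) : ℤ) - ((i : ℕ) : ℤ)) * ρ s i j
        have h1 : (((j : ℕ) : ℤ) - ((i : ℕ) : ℤ)) = (((j : ℕ) - (i : ℕ) - 1 : ℕ) : ℤ) + 1 := by
          omega
        rw [h1, zpow_add_one₀ hNq, zpow_natCast]
        push_cast
        rw [hz]
        ring
    | one =>
      intro i j
      rw [hD1]
      by_cases h : i = j
      · exact ⟨1, by rw [if_pos h, Int.cast_one]⟩
      · exact ⟨0, by rw [if_neg h, Int.cast_zero]⟩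
    | mul x y _ _ hx hy =>
      intro i j
      choose zx hzx using hx
      choose zy hzy using hy
      refine ⟨∑ k, zx i k * zy k j, ?_⟩
      rw [hDmul]
      push_cast
      apply Finset.sum_congr rfl
      intro k _
      rw [hzx, hzy]
  choose z hz using hint
  let ψ : H →* Matrix (Fin m) (Fin m) ℤ :=
    { toFun := fun g => Matrix.of (z g)
      map_one' := by
        ext i j
        have h1 : ((z 1 i j : ℤ) : ℚ) = ((if i = j then 1 else 0 : ℤ) : ℚ) := by
          rw [hz, hD1]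
          split_ifs <;> simp
        rw [Matrix.of_apply, Matrix.one_apply]
        exact_mod_cast h1
      map_mul' := by
        intro g h
        ext i j
        have h1 : ((z (g * h) i j : ℤ) : ℚ) = ((∑ k, z g i k * z h k j : ℤ) : ℚ) := by
          push_cast
          rw [hz, hDmul]
          apply Finset.sum_congr rfl
          intro k _
          rw [hz, hz]
        rw [Matrix.mul_apply]
        simp only [Matrix.of_apply]
        exact_mod_cast h1 }
  have hψ : ∀ g i j, ((ψ g i j : ℤ) : ℚ) = D g i j := fun g i j => hz g i j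
  refine ⟨ψ, ?_, ?_⟩
  · intro g a b h1
    have h2 : ((ψ g a b : ℤ) : ℚ) = ((if a = b then 1 else 0 : ℤ) : ℚ) := by
      rw [hψ, hDlow g a b h1]
      split_ifs <;> simp
    exact_mod_cast h2
  · intro g hg hc
    apply hg
    ext i j
    have h1 := hψ g i j
    rw [hc] at h1
    have h2 : D g i j = (N : ℚ) ^ (((j : ℕ) : ℤ) - ((i : ℕ) : ℤ)) * ρ g i j := rfl
    rw [h2] at h1
    rw [Matrix.one_apply] at h1 ⊢
    by_cases hij : i = j
    · rw [if_pos hij, Int.cast_one, hij, sub_self, zpow_zero, one_mul] at h1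
      rw [if_pos hij, hij]
      exact h1.symm
    · rw [if_neg hij, Int.cast_zero] at h1
      rw [if_neg hij]
      rcases mul_eq_zero.1 h1.symm with h3 | h3
      · exact absurd h3 (zpow_ne_zero _ hNq)
      · exact h3

/-- finitely generated groups are small -/
lemma small_of_fg [hfg : Group.FG H] : Small.{0} H := by
  obtain ⟨S, hS⟩ := Group.fg_def.1 hfg
  have hsurj : Function.Surjective
      (FreeGroup.lift (fun i : Fin (Fintype.card S) => ((Fintype.equivFin S).symm i : H))) := by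
    rw [← MonoidHom.range_eq_top, FreeGroup.range_lift_eq_closure, ← hS]
    congr 1
    ext x
    constructor
    · rintro ⟨i, rfl⟩
      exact ((Fintype.equivFin S).symm i).2
    · intro hx
      exact ⟨Fintype.equivFin S ⟨x, hx⟩, by simp⟩
  exact small_of_surjective hsurj

open Pool.Agent.W348.RG in
/-- torsion-free nilpotent groups -/
theorem exists_uni [hfg : Group.FG H] (hn : Group.IsNilpotent H)
    (htf : ∀ (x : H) (m : ℕ), 0 < m → x ^ m = 1 → x = 1) :
    ∃ (m : ℕ) (ρ : H →* Matrix (Fin m) (Fin m) ℚ), Function.Injective ρ ∧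
      ∀ g i j, j ≤ i → ρ g i j = if i = j then 1 else 0 := by
  have hsm : Small.{0} H := small_of_fg
  let e : Shrink.{0} H ≃* H := Shrink.mulEquiv
  have hn' : Group.IsNilpotent (Shrink.{0} H) := Group.nilpotent_of_mulEquiv e.symm
  have hfg' : Group.FG (Shrink.{0} H) := Group.fg_of_surjective (f := e.symm.toMonoidHom) e.symm.surjective
  obtain ⟨r⟩ := jen (Shrink.{0} H) (by
    intro x n hn hx
    apply e.injective
    rw [map_one]
    exact htf (e x) n hn (by rw [← map_pow, hx, map_one]))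
  exact ⟨r.m, r.ρ.comp e.symm.toMonoidHom, r.inj.comp e.symm.injective, fun g => r.uni _⟩

theorem not_mem_KU [hfg : Group.FG H] (h : H) (N : Subgroup H) [hN : N.Normal]
    (hnil : Group.IsNilpotent (H ⧸ N))
    (htf : ∀ (x : H ⧸ N) (m : ℕ), 0 < m → x ^ m = 1 → x = 1) (hh : h ∉ N) : h ∉ KU H := by
  have hfg' : Group.FG (H ⧸ N) := Group.fg_of_surjective (f := QuotientGroup.mk' N)
    (QuotientGroup.mk'_surjective N)
  obtain ⟨m, ρ, hinj, huni⟩ := exists_uni hnil htf
  obtain ⟨ψ, h1, h2⟩ := integral ρ huni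
  intro hK
  have h3 := hK m (ψ.comp (QuotientGroup.mk' N)) (fun g => h1 _)
  refine h2 (QuotientGroup.mk' N h) ?_ h3
  intro hc
  apply hh
  rw [← map_one ρ] at hc
  exact (QuotientGroup.eq_one_iff h).1 (hinj hc)

end int

end Pool.Agent.H748.Sig
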